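import Mathlib
import Pool.Agent.Helper617.RM.Orders
import Pool.Agent.Helper617.RM.HLDefs

/-!
Models of the system `ATR₀` of second-order arithmetic (Henkin semantics), following Simpson,
Subsystems of second order arithmetic, Definitions V.1.1, V.2.1, V.2.4, and the principle
`EXT(η)`: every scattered countable partial order has a scattered linearization.
-/

namespace Pool.Agent.Helper317.Atr

open Pool.Agent.Helper617.RM

universe u

/-- Arithmetical formulas `θ(Y)` with number and set parameters from the structure and with one
additional free set variable `Y` (`memY t` is `t ∈ Y`), in de Bruijn form: `all φ` is `∀ x, φ`,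
where `x` is the variable `0` of `φ` and the variable `i` of `all φ` is the variable `i + 1`
of `φ`. -/
inductive OpForm (N : L2Structure.{u}) : Type u
  | eq (s t : Term N) : OpForm N
  | lt (s t : Term N) : OpForm N
  | mem (t : Term N) (X : N.Sets) : OpForm N
  | memY (t : Term N) : OpForm N
  | neg (φ : OpForm N) : OpForm N
  | and (φ ψ : OpForm N) : OpForm N
  | all (φ : OpForm N) : OpForm N

/-- Truth of the formula `φ(Y)` in the structure under an assignment of the number variables. -/
def OpForm.Holds {N : L2Structure.{u}} (Y : Set N.M) : OpForm N → (ℕ → N.M) → Prop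
  | .eq s t, v => s.val v = t.val v
  | .lt s t, v => N.lt (s.val v) (t.val v)
  | .mem t X, v => t.val v ∈ (X : Set N.M)
  | .memY t, v => t.val v ∈ Y
  | .neg φ, v => ¬ φ.Holds Y v
  | .and φ ψ, v => φ.Holds Y v ∧ ψ.Holds Y v
  | .all φ, v => ∀ a, φ.Holds Y (cons a v)

variable (N : L2Structure.{u})

/-- `R` is a (non-strict) well-ordering of `D` in the sense of the structure: `D` and `R` are in
the structure, `R` is a linear order on `D`, and the structure contains no infinite descending
sequence. -/
structure IsWellOrd (D : Set N.M) (R : N.M → N.M → Prop) : Prop extends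
    IsLinearOrd N D R where
  mem : D ∈ N.Sets
  rel : RelIn N R
  noDesc : ¬ ∃ f : N.M → N.M, FunIn N f ∧
    ∀ i, R (f (N.add i N.one)) (f i) ∧ f (N.add i N.one) ≠ f i

/-- `Y^j`, the set of all pairs `(m, i)` in `Y` for which `i` is below `j` in the order `R`. -/
def Below (R : N.M → N.M → Prop) (Y : Set N.M) (j : N.M) : Set N.M :=
  {p | p ∈ Y ∧ ∃ m i, R i j ∧ i ≠ j ∧ p = N.pair m i}

/-- The scheme of arithmetical transfinite recursion: for each well-ordering `R` of a set `D` and
each arithmetical formula `θ(n, Y)` there is a set `Y` of pairs `(n, j)` with `j ∈ D` such that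
for all `j ∈ D` and all `n`, `(n, j) ∈ Y` if and only if `θ(n, Y^j)`. -/
def ArithTransRec : Prop :=
  ∀ (D : Set N.M) (R : N.M → N.M → Prop), IsWellOrd N D R →
    ∀ (θ : OpForm N) (v : ℕ → N.M), ∃ Y ∈ N.Sets, ∀ p, p ∈ Y ↔
      ∃ n j, j ∈ D ∧ p = N.pair n j ∧ θ.Holds (Below N R Y j) (cons n v)

/-- `N` is a model of `ATR₀`: a model of `RCA₀` that satisfies arithmetical comprehension and
arithmetical transfinite recursion. -/
structure IsModelATR0 : Prop where
  rca : IsModelRCA0 N
  aca : ArithComp N
  atr : ArithTransRec N

/-- The inequality `(a - b) / (c + 1) < (a' - b') / (c' + 1)` between fractions. -/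
def FracLt (a b c a' b' c' : N.M) : Prop :=
  N.lt (N.add (N.mul a (N.add c' N.one)) (N.mul b' (N.add c N.one)))
    (N.add (N.mul a' (N.add c N.one)) (N.mul b (N.add c' N.one)))

/-- The equality `(a - b) / (c + 1) = (a' - b') / (c' + 1)` of fractions. -/
def FracEq (a b c a' b' c' : N.M) : Prop :=
  N.add (N.mul a (N.add c' N.one)) (N.mul b' (N.add c N.one)) =
    N.add (N.mul a' (N.add c N.one)) (N.mul b (N.add c' N.one))

/-- The code of the fraction `(a - b) / (c + 1)`. -/
def fracCode (a b c : N.M) : N.M := N.pair (N.pair a b) c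

/-- `f` is an embedding, existing in the structure, of the rationals into the order `R` on `D`:
`f (fracCode a b c)` is the image of the rational `(a - b) / (c + 1)`. -/
structure IsEmbEta (D : Set N.M) (R : N.M → N.M → Prop) (f : N.M → N.M) : Prop where
  mem : FunIn N f
  dom : ∀ a b c, f (fracCode N a b c) ∈ D
  eq : ∀ a b c a' b' c', FracEq N a b c a' b' c' → f (fracCode N a b c) = f (fracCode N a' b' c')
  lt : ∀ a b c a' b' c', FracLt N a b c a' b' c' →
    R (f (fracCode N a b c)) (f (fracCode N a' b' c')) ∧
      f (fracCode N a b c) ≠ f (fracCode N a' b' c')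

/-- The order `R` on `D` is scattered: the rationals do not embed into it. -/
def Scattered (D : Set N.M) (R : N.M → N.M → Prop) : Prop := ¬ ∃ f, IsEmbEta N D R f

/-- `EXT(η)`: every countable scattered partial order has a scattered linearization. -/
def ExtEta : Prop :=
  ∀ D ∈ N.Sets, ∀ R : N.M → N.M → Prop, RelIn N R → IsPartialOrd N D R → Scattered N D R →
    ∃ L : N.M → N.M → Prop, RelIn N L ∧ IsLinearOrd N D L ∧ (∀ x y, R x y → L x y) ∧
      Scattered N D L

end Pool.Agent.Helper317.Atr
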