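import Mathlib
import Pool.Agent.Helper317.Atr.Defs
import Pool.Agent.Helper617.RM.ACATools

namespace Pool.Agent.Helper317.Atr

open Pool.Agent.Helper617.RM IsModelRCA0

universe u

set_option linter.unusedSectionVars false
set_option linter.unusedVariables false

variable {N : L2Structure.{u}}

/-- relations between assignments and sets that are given by a formula -/
def AY (R : Ctx N → Set N.M → Prop) : Prop := ∃ φ : OpForm N, ∀ v Y, φ.Holds Y v ↔ R v Y

def OpForm.subst : (ℕ → Term N) → OpForm N → OpForm N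
  | σ, .eq s t => .eq (s.subst σ) (t.subst σ)
  | σ, .lt s t => .lt (s.subst σ) (t.subst σ)
  | σ, .mem t X => .mem (t.subst σ) X
  | σ, .memY t => .memY (t.subst σ)
  | σ, .neg φ => .neg (φ.subst σ)
  | σ, .and φ ψ => .and (φ.subst σ) (ψ.subst σ)
  | σ, .all φ => .all (φ.subst (Term.up σ))

theorem OpForm.holds_subst (φ : OpForm N) (Y : Set N.M) : ∀ (σ : ℕ → Term N) (v : Ctx N),
    (φ.subst σ).Holds Y v ↔ φ.Holds Y (fun i => (σ i).val v) := by
  induction φ with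
  | eq s t => intro σ v; simp only [OpForm.subst, OpForm.Holds, Term.val_subst]
  | lt s t => intro σ v; simp only [OpForm.subst, OpForm.Holds, Term.val_subst]
  | mem t X => intro σ v; simp only [OpForm.subst, OpForm.Holds, Term.val_subst]
  | memY t => intro σ v; simp only [OpForm.subst, OpForm.Holds, Term.val_subst]
  | neg φ ih => intro σ v; simp only [OpForm.subst, OpForm.Holds, ih]
  | and φ ψ ih1 ih2 => intro σ v; simp only [OpForm.subst, OpForm.Holds, ih1, ih2]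
  | all φ ih =>
    intro σ v
    simp only [OpForm.subst, OpForm.Holds, ih, Term.up_val]

theorem AY.comp {R : Ctx N → Set N.M → Prop} (hR : AY R) {g : Ctx N → Ctx N} (hg : CM g) :
    AY (fun v Y => R (g v) Y) := by
  obtain ⟨φ, hφ⟩ := hR
  choose σ hσ using hg
  refine ⟨φ.subst σ, fun v Y => ?_⟩
  have : (fun i => (σ i).val v) = g v := by funext i; exact hσ i v
  rw [OpForm.holds_subst, this]
  exact hφ _ _

theorem AY.congr {R S : Ctx N → Set N.M → Prop} (hR : AY R) (h : ∀ v Y, R v Y ↔ S v Y) :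
    AY S := by
  obtain ⟨φ, hφ⟩ := hR
  exact ⟨φ, fun v Y => (hφ v Y).trans (h v Y)⟩

theorem AY.not {R : Ctx N → Set N.M → Prop} (hR : AY R) : AY (fun v Y => ¬ R v Y) := by
  obtain ⟨φ, hφ⟩ := hR
  exact ⟨.neg φ, fun v Y => not_congr (hφ v Y)⟩

theorem AY.and {R S : Ctx N → Set N.M → Prop} (hR : AY R) (hS : AY S) :
    AY (fun v Y => R v Y ∧ S v Y) := by
  obtain ⟨φ, hφ⟩ := hR
  obtain ⟨ψ, hψ⟩ := hS
  exact ⟨.and φ ψ, fun v Y => and_congr (hφ v Y) (hψ v Y)⟩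

theorem AY.or {R S : Ctx N → Set N.M → Prop} (hR : AY R) (hS : AY S) :
    AY (fun v Y => R v Y ∨ S v Y) :=
  (hR.not.and hS.not).not.congr fun v Y => by tauto

theorem AY.imp {R S : Ctx N → Set N.M → Prop} (hR : AY R) (hS : AY S) :
    AY (fun v Y => R v Y → S v Y) :=
  (hR.and hS.not).not.congr fun v Y => by tauto

theorem AY.iff {R S : Ctx N → Set N.M → Prop} (hR : AY R) (hS : AY S) :
    AY (fun v Y => (R v Y ↔ S v Y)) :=
  ((hR.imp hS).and (hS.imp hR)).congr fun v Y => by tauto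

theorem AY.all {P : Ctx N → Set N.M → N.M → Prop}
    (hP : AY (fun w Y => P (Helper617.RM.tail w) Y (w 0))) : AY (fun v Y => ∀ x, P v Y x) := by
  obtain ⟨φ, hφ⟩ := hP
  refine ⟨.all φ, fun v Y => ?_⟩
  simp only [OpForm.Holds]
  exact forall_congr' fun a => hφ (Helper617.RM.cons a v) Y

theorem AY.ex {P : Ctx N → Set N.M → N.M → Prop}
    (hP : AY (fun w Y => P (Helper617.RM.tail w) Y (w 0))) : AY (fun v Y => ∃ x, P v Y x) :=
  (AY.all (P := fun v Y x => ¬ P v Y x) hP.not).not.congr fun v Y => by push Not; rfl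

theorem AY.memY {t : Ctx N → N.M} (ht : Tm t) : AY (fun v Y => t v ∈ Y) := by
  obtain ⟨τ, hτ⟩ := ht
  exact ⟨.memY τ, fun v Y => by simp only [OpForm.Holds, hτ]⟩

theorem AY.of_Delta0 (φ : Delta0 N) : AY (fun v _ => φ.Holds v) := by
  induction φ with
  | eq s t => exact ⟨.eq s t, fun _ _ => Iff.rfl⟩
  | lt s t => exact ⟨.lt s t, fun _ _ => Iff.rfl⟩
  | mem t X => exact ⟨.mem t X, fun _ _ => Iff.rfl⟩
  | neg φ ih => exact ih.not
  | and φ ψ ih1 ih2 => exact ih1.and ih2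
  | ball t φ ih =>
    refine AY.all (P := fun v Y a => N.lt a (t.val v) → φ.Holds (cons a v)) ?_
    refine AY.imp ?_ (ih.congr fun w Y => by rw [cons_tail])
    refine ⟨.lt (.var 0) (t.subst fun i => .var (i + 1)), fun v Y => ?_⟩
    simp only [OpForm.Holds, Term.val_subst]
    rfl

theorem AY.of_D0 {R : Ctx N → Prop} (hR : D0 R) : AY (fun v _ => R v) := by
  obtain ⟨φ, hφ⟩ := hR
  exact (AY.of_Delta0 φ).congr fun v Y => hφ v

/-- substitution of a set defined by a formula -/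
theorem AY.substY {R : Ctx N → Set N.M → Prop} (hR : AY R) {S : N.M → Set N.M → Prop}
    (hS : AY (fun v Y => S (v 0) Y)) : AY (fun v Y => R v {p | S p Y}) := by
  obtain ⟨φ, hφ⟩ := hR
  refine AY.congr (R := fun v Y => φ.Holds {p | S p Y} v) ?_ fun v Y => hφ _ _
  clear hφ
  induction φ with
  | eq s t => exact ⟨.eq s t, fun _ _ => Iff.rfl⟩
  | lt s t => exact ⟨.lt s t, fun _ _ => Iff.rfl⟩
  | mem t X => exact ⟨.mem t X, fun _ _ => Iff.rfl⟩
  | memY t =>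
    exact hS.comp (g := fun v => cons (t.val v) v) (CM.cons ⟨t, fun _ => rfl⟩ CM.id)
  | neg φ ih => exact ih.not
  | and φ ψ ih1 ih2 => exact ih1.and ih2
  | all φ ih =>
    refine AY.all (P := fun v Y a => φ.Holds {p | S p Y} (cons a v)) ?_
    exact ih.congr fun w Y => by rw [cons_tail]

section model

variable [IsModelRCA0 N]

/-- for a set of the structure one obtains a relation that is definable -/
theorem AY.d0 [Sig1 N] {R : Ctx N → Set N.M → Prop} (hR : AY R) {Y : Set N.M}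
    (hY : Y ∈ N.Sets) : D0 (fun v => R v Y) := by
  obtain ⟨φ, hφ⟩ := hR
  refine D0.congr (R := fun v => φ.Holds Y v) ?_ fun v => hφ v Y
  clear hφ
  induction φ with
  | eq s t => exact D0.eq ⟨s, fun _ => rfl⟩ ⟨t, fun _ => rfl⟩
  | lt s t => exact D0.lt ⟨s, fun _ => rfl⟩ ⟨t, fun _ => rfl⟩
  | mem t X => exact D0.mem ⟨t, fun _ => rfl⟩ X.2
  | memY t => exact D0.mem ⟨t, fun _ => rfl⟩ hY
  | neg φ ih => exact ih.not
  | and φ ψ ih1 ih2 => exact ih1.and ih2
  | all φ ih =>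
    refine D0.all (P := fun v a => φ.Holds Y (cons a v)) ?_
    exact ih.congr fun w => by rw [cons_tail]

/-- recursion along a well-ordering; the operator may depend on the stage -/
theorem atr_rec [Sig1 N] (hA : ArithTransRec N) {D : Set N.M} {R : N.M → N.M → Prop}
    (hW : IsWellOrd N D R) {Θ : N.M → N.M → Set N.M → Prop}
    (hΘ : AY (fun v Z => Θ (v 0) (v 1) Z)) :
    ∃ E : N.M → N.M → Prop, D0 (fun v => E (v 0) (v 1)) ∧
      ∀ j ∈ D, ∀ x, (E j x ↔ Θ j x {p | ∃ x' i, p = pr x' i ∧ R i j ∧ i ≠ j ∧ E i x'}) := by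
  have hRD : D0 (fun v => R (v 0) (v 1)) := D0.of_codeRel hW.rel
  set S : N.M → Set N.M → Prop := fun n Z => n = 0 ∨ ∃ x, n = x + 1 ∧ ∃ j, j ∈ D ∧
    ((∀ i, ((R i j ∧ i ≠ j) ↔ pr 0 i ∈ Z)) ∧
      Θ j x {p | ∃ x' i, p = pr x' i ∧ pr (x' + 1) i ∈ Z}) with hSdef
  have hS : AY (fun v Z => S (v 0) Z) := by
    refine AY.or (AY.of_D0 (D0.eq (Tm.var 0) Tm.zero)) (AY.ex (AY.and
      (AY.of_D0 (D0.eq (Tm.var 1) ((Tm.var 0).add Tm.one))) (AY.ex (AY.and
        (AY.of_D0 (D0.mem (Tm.var 0) hW.mem)) (AY.and (AY.all (AY.iff (AY.of_D0 (D0.and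
          (hRD.rel (Tm.var 0) (Tm.var 1)) (D0.eq (Tm.var 0) (Tm.var 1)).not))
            (AY.memY (Tm.zero.pr (Tm.var 0))))) ?_)))))
    have h1 : AY (N := N) (fun v Y => ∃ x' i, v 0 = pr x' i ∧ pr (x' + 1) i ∈ Y) := by
      refine AY.ex (AY.ex (AY.and (AY.of_D0 (D0.eq (Tm.var 2) ((Tm.var 1).pr (Tm.var 0))))
        (AY.memY (((Tm.var 1).add Tm.one).pr (Tm.var 0)))))
    have h2 := AY.substY (R := fun v Z => Θ (v 0) (v 1) Z)
      (S := fun p Y => ∃ x' i, p = pr x' i ∧ pr (x' + 1) i ∈ Y) hΘ h1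
    exact h2.comp (g := fun w => cons (w 0) (cons (w 1) w))
      (CM.cons (Tm.var 0) (CM.cons (Tm.var 1) CM.id))
  obtain ⟨φ, hφ⟩ := hS
  obtain ⟨Y, hY, hYp⟩ := hA D R hW φ (fun _ => 0)
  have hYp' : ∀ n j, pr n j ∈ Y ↔ j ∈ D ∧ S n (Below N R Y j) := by
    intro n j
    rw [hYp]
    constructor
    · rintro ⟨n', j', h1, h2, h3⟩
      obtain ⟨rfl, rfl⟩ := pr_inj h2
      exact ⟨h1, (hφ _ _).1 h3⟩
    · rintro ⟨h1, h2⟩
      exact ⟨n, j, h1, rfl, (hφ _ _).2 h2⟩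
  have hB : ∀ n i j, pr n i ∈ Below N R Y j ↔ (pr n i ∈ Y ∧ R i j ∧ i ≠ j) := by
    intro n i j
    constructor
    · rintro ⟨h0, m, i', h1, h2, h3⟩
      obtain ⟨rfl, rfl⟩ := pr_inj h3
      exact ⟨h0, h1, h2⟩
    · rintro ⟨h0, h1, h2⟩
      exact ⟨h0, n, i, h1, h2, rfl⟩
  have hB0 : ∀ i j, pr 0 i ∈ Below N R Y j ↔ (R i j ∧ i ≠ j) := by
    intro i j
    rw [hB, hYp']
    constructor
    · rintro ⟨_, h⟩; exact h
    · rintro h
      exact ⟨⟨(hW.dom _ _ h.1).1, Or.inl rfl⟩, h⟩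
  refine ⟨fun j x => pr (x + 1) j ∈ Y, D0.mem (((Tm.var 1).add Tm.one).pr (Tm.var 0)) hY,
    fun j hj x => ?_⟩
  have hset : ({p | ∃ x' i, p = pr x' i ∧ pr (x' + 1) i ∈ Below N R Y j} : Set N.M) =
      {p | ∃ x' i, p = pr x' i ∧ R i j ∧ i ≠ j ∧ pr (x' + 1) i ∈ Y} := by
    ext p
    constructor
    · rintro ⟨x', i, h1, h2⟩
      obtain ⟨h3, h4, h5⟩ := (hB _ _ _).1 h2
      exact ⟨x', i, h1, h4, h5, h3⟩
    · rintro ⟨x', i, h1, h2, h3, h4⟩
      exact ⟨x', i, h1, (hB _ _ _).2 ⟨h4, h2, h3⟩⟩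
  show pr (x + 1) j ∈ Y ↔ Θ j x {p | ∃ x' i, p = pr x' i ∧ R i j ∧ i ≠ j ∧ pr (x' + 1) i ∈ Y}
  rw [hYp', ← hset]
  constructor
  · rintro ⟨_, h⟩
    rcases h with h | ⟨x0, hx0, j', hj', h1, h2⟩
    · exact absurd h (succ_ne_zero' x)
    · obtain rfl : x = x0 := add_cancel' hx0
      have hjj : j' = j := by
        by_contra hne
        rcases hW.total j' hj' j hj with h | h
        · have := (h1 j').2 ((hB0 j' j).2 ⟨h, hne⟩)
          exact this.2 rfl
        · have := (hB0 j j).1 ((h1 j).1 ⟨h, fun e => hne e.symm⟩)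
          exact this.2 rfl
      subst hjj
      exact h2
  · intro h
    exact ⟨hj, Or.inr ⟨x, rfl, j, hj, fun i => (hB0 i j).symm, h⟩⟩

end model

end Pool.Agent.Helper317.Atr
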