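import Mathlib

/-!
The combinatorial core of the recursion step, in an abstract form.
-/

namespace Pool.Agent.Helper317.Atr

universe u

section core

variable {α : Type u} [LinearOrder α]

/-- the strict part -/
def SR (R : α → α → Prop) (a b : α) : Prop := R a b ∧ a ≠ b

/-- `En i c` says that the `i`-th entry of a node is `c`; `Pos m a`: the element `a` can be placed
at the index `m` -/
def Pos (D : Set α) (R Q En : α → α → Prop) (m a : α) : Prop :=
  a ∈ D ∧ ∀ i c, En i c → (Q i m → SR R c a) ∧ (Q m i → SR R a c)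

/-- the index `m` is equivalent to an index that already has an entry -/
def Old (Q En : α → α → Prop) (m : α) : Prop := ∃ i c, En i c ∧ ¬ Q i m ∧ ¬ Q m i

/-- the properties of the linear order `L` constructed at a node with entries `En` -/
structure InvA (D : Set α) (R Q En L : α → α → Prop) : Prop where
  dom : ∃ m, ¬ Old Q En m ∧ ∀ a, L a a ↔ Pos D R Q En m a
  fld : ∀ a b, L a b → L a a ∧ L b b
  anti : ∀ a b, L a b → L b a → a = b
  trans : ∀ a b c, L a b → L b c → L a c
  total : ∀ a b, L a a → L b b → L a b ∨ L b a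
  ext : ∀ a b, L a a → L b b → R a b → L a b

/-- the entries of the child with last entry `z` at the index `n` -/
def Ext (En : α → α → Prop) (n z : α) : α → α → Prop := fun i c => En i c ∨ (i = n ∧ c = z)

/-- left type -/
def LtA (D : Set α) (R Q En : α → α → Prop) (n : α) (F : α → α → α → Prop) (z : α) : Prop :=
  ∀ a, F z a a ↔ (Pos D R Q En n a ∧ SR R a z)

/-- right type -/
def RtA (D : Set α) (R Q En : α → α → Prop) (n : α) (F : α → α → α → Prop) (z : α) : Prop :=
  (∀ a, F z a a ↔ (Pos D R Q En n a ∧ SR R z a)) ∧ ¬ LtA D R Q En n F z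

/-- the child `z` gives an order for another position -/
def Far (D : Set α) (R Q En : α → α → Prop) (n : α) (C : α → Prop) (F : α → α → α → Prop)
    (z : α) : Prop :=
  C z ∧ (Old Q En n ∨ (¬ LtA D R Q En n F z ∧ ¬ RtA D R Q En n F z))

/-- `z` captures `a` -/
def Cap (D : Set α) (R Q En : α → α → Prop) (n : α) (C : α → Prop) (F : α → α → α → Prop)
    (z a : α) : Prop :=
  C z ∧ Pos D R Q En n a ∧ ((LtA D R Q En n F z ∧ R a z) ∨ (RtA D R Q En n F z ∧ R z a))

/-- `z` is the first element that captures `a` -/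
def Key (D : Set α) (R Q En : α → α → Prop) (n : α) (C : α → Prop) (F : α → α → α → Prop)
    (z a : α) : Prop :=
  Cap D R Q En n C F z a ∧ ∀ w, w < z → ¬ Cap D R Q En n C F w a

/-- the order of the pieces -/
def Bef (D : Set α) (R Q En : α → α → Prop) (n : α) (F : α → α → α → Prop) (z w : α) : Prop :=
  (LtA D R Q En n F z ∧ ¬ LtA D R Q En n F w) ∨
    (LtA D R Q En n F z ∧ LtA D R Q En n F w ∧ z < w) ∨
    (¬ LtA D R Q En n F z ∧ ¬ LtA D R Q En n F w ∧ w < z)

/-- the order of a piece -/
def Hz (D : Set α) (R Q En : α → α → Prop) (n : α) (F : α → α → α → Prop) (z a b : α) : Prop :=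
  F z a b ∨ (LtA D R Q En n F z ∧ b = z) ∨ (¬ LtA D R Q En n F z ∧ a = z)

/-- the recursion step -/
def Step (D : Set α) (R Q En : α → α → Prop) (n : α) (C : α → Prop) (F : α → α → α → Prop)
    (a b : α) : Prop :=
  (∃ z, Far D R Q En n C F z ∧ (∀ w, w < z → ¬ Far D R Q En n C F w) ∧ F z a b) ∨
    ((∀ z, ¬ Far D R Q En n C F z) ∧ ∃ z w, Key D R Q En n C F z a ∧ Key D R Q En n C F w b ∧
      (Bef D R Q En n F z w ∨ (z = w ∧ Hz D R Q En n F z a b)))

/-- the assumptions on a node with entries `En`, of length `n`; `C z` says that `z` is the last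
entry of a child, and `F z` is the order constructed at this child -/
structure NodeHyp (D : Set α) (R Q En : α → α → Prop) (n : α) (C : α → Prop)
    (F : α → α → α → Prop) : Prop where
  refl : ∀ x ∈ D, R x x
  antisymm : ∀ x y, R x y → R y x → x = y
  rtrans : ∀ x y z, R x y → R y z → R x z
  qirr : ∀ i, ¬ Q i i
  qtrans : ∀ i j k, Q i j → Q j k → Q i k
  qneg : ∀ i j k, Q i k → Q i j ∨ Q j k
  enD : ∀ i c, En i c → c ∈ D
  enQ : ∀ i c j d, En i c → En j d → Q i j → SR R c d
  enE : ∀ i c j d, En i c → En j d → ¬ Q i j → ¬ Q j i → c = d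
  child : ∀ z, C z ↔ (Pos D R Q En n z ∧ ∀ i c, En i c → ¬ Q i n → ¬ Q n i → c = z)
  inv : ∀ z, C z → InvA D R Q (Ext En n z) (F z)
  leastFar : (∃ z, Far D R Q En n C F z) →
    ∃ z, Far D R Q En n C F z ∧ ∀ w, w < z → ¬ Far D R Q En n C F w
  leastCap : ∀ a, (∃ z, Cap D R Q En n C F z a) →
    ∃ z, Cap D R Q En n C F z a ∧ ∀ w, w < z → ¬ Cap D R Q En n C F w a

end core

end Pool.Agent.Helper317.Atr
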