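import Mathlib

namespace Pool.Agent.Helper317.Atr

universe u

section job

variable {α : Type u} [CommSemiring α] [LinearOrder α] [IsStrictOrderedRing α]
  [CanonicallyOrderedAdd α]

/-- `(a - b) / (c + 1) < (a' - b') / (c' + 1)` -/
def FL (a b c a' b' c' : α) : Prop := a * (c' + 1) + b' * (c + 1) < a' * (c + 1) + b * (c' + 1)

theorem FL_irrefl (a b c : α) : ¬ FL a b c a b c := by
  unfold FL
  exact lt_irrefl _

theorem FL_pos (c : α) : 0 < c + 1 := lt_of_lt_of_le zero_lt_one le_add_self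

theorem FL_trans (a b c a' b' c' a'' b'' c'' : α) (h : FL a b c a' b' c')
    (h' : FL a' b' c' a'' b'' c'') : FL a b c a'' b'' c'' := by
  unfold FL at *
  have e1 := mul_lt_mul_of_pos_right h (FL_pos c'')
  have e2 := mul_lt_mul_of_pos_right h' (FL_pos c)
  have e3 := add_lt_add e1 e2
  refine lt_of_mul_lt_mul_left (a := c' + 1) ?_ (FL_pos c').le
  refine lt_of_add_lt_add_right (a := a' * (c + 1) * (c'' + 1) + b' * (c + 1) * (c'' + 1)) ?_
  calc (c' + 1) * (a * (c'' + 1) + b'' * (c + 1)) +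
        (a' * (c + 1) * (c'' + 1) + b' * (c + 1) * (c'' + 1))
      = (a * (c' + 1) + b' * (c + 1)) * (c'' + 1) + (a' * (c'' + 1) + b'' * (c' + 1)) * (c + 1) := by
        ring
    _ < (a' * (c + 1) + b * (c' + 1)) * (c'' + 1) + (a'' * (c' + 1) + b' * (c'' + 1)) * (c + 1) :=
        e3
    _ = (c' + 1) * (a'' * (c + 1) + b * (c'' + 1)) +
        (a' * (c + 1) * (c'' + 1) + b' * (c + 1) * (c'' + 1)) := by ring

theorem FL_neg (a b c a' b' c' a'' b'' c'' : α) (h : FL a b c a'' b'' c'') :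
    FL a b c a' b' c' ∨ FL a' b' c' a'' b'' c'' := by
  by_contra hcon
  push Not at hcon
  obtain ⟨h1, h2⟩ := hcon
  unfold FL at *
  rw [not_lt] at h1 h2
  have e1 := mul_le_mul_of_nonneg_right h1 (FL_pos c'').le
  have e2 := mul_le_mul_of_nonneg_right h2 (FL_pos c).le
  have e3 := add_le_add e1 e2
  have e4 : (c' + 1) * (a'' * (c + 1) + b * (c'' + 1)) ≤
      (c' + 1) * (a * (c'' + 1) + b'' * (c + 1)) := by
    refine le_of_add_le_add_right
      (a := a' * (c + 1) * (c'' + 1) + b' * (c + 1) * (c'' + 1)) ?_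
    calc (c' + 1) * (a'' * (c + 1) + b * (c'' + 1)) +
        (a' * (c + 1) * (c'' + 1) + b' * (c + 1) * (c'' + 1))
        = (a' * (c + 1) + b * (c' + 1)) * (c'' + 1) +
          (a'' * (c' + 1) + b' * (c'' + 1)) * (c + 1) := by ring
      _ ≤ (a * (c' + 1) + b' * (c + 1)) * (c'' + 1) +
          (a' * (c'' + 1) + b'' * (c' + 1)) * (c + 1) := e3
      _ = (c' + 1) * (a * (c'' + 1) + b'' * (c + 1)) +
        (a' * (c + 1) * (c'' + 1) + b' * (c + 1) * (c'' + 1)) := by ring
  exact absurd (mul_lt_mul_of_pos_left h (FL_pos c')) (not_lt.mpr e4)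

theorem FL_dense (a b c a' b' c' : α) (h : FL a b c a' b' c') :
    FL a b c (a + a') (b + b') (c + c' + 1) ∧ FL (a + a') (b + b') (c + c' + 1) a' b' c' := by
  unfold FL at *
  constructor
  · calc a * (c + c' + 1 + 1) + (b + b') * (c + 1)
        = (a * (c + 1) + b * (c + 1)) + (a * (c' + 1) + b' * (c + 1)) := by ring
      _ < (a * (c + 1) + b * (c + 1)) + (a' * (c + 1) + b * (c' + 1)) := by gcongr
      _ = (a + a') * (c + 1) + b * (c + c' + 1 + 1) := by ring
  · calc (a + a') * (c' + 1) + b' * (c + c' + 1 + 1)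
        = (a' * (c' + 1) + b' * (c' + 1)) + (a * (c' + 1) + b' * (c + 1)) := by ring
      _ < (a' * (c' + 1) + b' * (c' + 1)) + (a' * (c + 1) + b * (c' + 1)) := by gcongr
      _ = a' * (c + c' + 1 + 1) + (b + b') * (c' + 1) := by ring

theorem FL_two [Nontrivial α] : FL (0 : α) 0 0 1 0 0 := by
  unfold FL
  simp

theorem FL_eq (a b c a' b' c' : α) :
    (¬ FL a b c a' b' c' ∧ ¬ FL a' b' c' a b c) ↔
      a * (c' + 1) + b' * (c + 1) = a' * (c + 1) + b * (c' + 1) := by
  unfold FL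
  rw [not_lt, not_lt]
  constructor
  · rintro ⟨h1, h2⟩
    exact le_antisymm h2 h1
  · intro h
    exact ⟨h.ge, h.le⟩

end job

end Pool.Agent.Helper317.Atr
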