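import Mathlib
import Pool.Agent.Helper317.Atr.Core

namespace Pool.Agent.Helper317.Atr

universe u



section job

variable {α : Type u} [LinearOrder α]


theorem is_pos_ext {D : Set α} {R Q En : α → α → Prop} {n z m a : α} :
    Pos D R Q (Ext En n z) m a ↔
      Pos D R Q En m a ∧ (Q n m → SR R z a) ∧ (Q m n → SR R a z) := by
  constructor
  · rintro ⟨h1, h2⟩
    refine ⟨⟨h1, fun i c hic => h2 i c (Or.inl hic)⟩, ?_⟩
    exact h2 n z (Or.inr ⟨rfl, rfl⟩)
  · rintro ⟨⟨h1, h2⟩, h3⟩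
    refine ⟨h1, ?_⟩
    rintro i c (hic | ⟨rfl, rfl⟩)
    · exact h2 i c hic
    · exact h3

theorem is_old_ext {Q En : α → α → Prop} {n z m : α} :
    Old Q (Ext En n z) m ↔ Old Q En m ∨ (¬ Q n m ∧ ¬ Q m n) := by
  constructor
  · rintro ⟨i, c, hic | ⟨rfl, rfl⟩, h2⟩
    · exact Or.inl ⟨i, c, hic, h2⟩
    · exact Or.inr h2
  · rintro (⟨i, c, hic, h2⟩ | h2)
    · exact ⟨i, c, Or.inl hic, h2⟩
    · exact ⟨n, z, Or.inr ⟨rfl, rfl⟩, h2⟩

/-- transfer of the invariants from the least far child -/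
theorem is_transfer {D : Set α} {R Q En L L' : α → α → Prop} {n z m : α}
    (hi : InvA D R Q (Ext En n z) L') (hL : ∀ a b, L a b ↔ L' a b)
    (hm : ¬ Old Q En m) (hd : ∀ a, L' a a ↔ Pos D R Q En m a) : InvA D R Q En L := by
  have hLe : L = L' := by
    funext a b
    exact propext (hL a b)
  subst hLe
  exact ⟨⟨m, hm, hd⟩, hi.fld, hi.anti, hi.trans, hi.total, hi.ext⟩

theorem is_step_far {D : Set α} {R Q En : α → α → Prop} {n : α} {C : α → Prop}
    {F : α → α → α → Prop} {z : α} (hz : Far D R Q En n C F z)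
    (hl : ∀ w, w < z → ¬ Far D R Q En n C F w) (a b : α) :
    Step D R Q En n C F a b ↔ F z a b := by
  constructor
  · rintro (⟨w, hw, hlw, h⟩ | ⟨h, -⟩)
    · have : w = z := by
        rcases lt_trichotomy w z with h1 | h1 | h1
        · exact absurd hw (hl w h1)
        · exact h1
        · exact absurd hz (hlw z h1)
      rw [← this]
      exact h
    · exact absurd hz (h z)
  · intro h
    exact Or.inl ⟨z, hz, hl, h⟩

theorem is_far_of_old {D : Set α} {R Q En : α → α → Prop} {n : α} {C : α → Prop}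
    {F : α → α → α → Prop} (h : NodeHyp D R Q En n C F) {i c : α} (hic : En i c)
    (h1 : ¬ Q i n) (h2 : ¬ Q n i) : Far D R Q En n C F c := by
  refine ⟨(h.child c).2 ⟨⟨h.enD i c hic, ?_⟩, ?_⟩, Or.inl ⟨i, c, hic, h1, h2⟩⟩
  · intro j d hjd
    constructor
    · intro hjn
      rcases h.qneg j i n hjn with h3 | h3
      · exact h.enQ j d i c hjd hic h3
      · exact absurd h3 h1
    · intro hnj
      rcases h.qneg n i j hnj with h3 | h3
      · exact absurd h3 h2
      · exact h.enQ i c j d hic hjd h3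
  · intro j d hjd h3 h4
    refine h.enE j d i c hjd hic ?_ ?_
    · intro h5
      rcases h.qneg j n i h5 with h6 | h6
      · exact h3 h6
      · exact h2 h6
    · intro h5
      rcases h.qneg i n j h5 with h6 | h6
      · exact h1 h6
      · exact h4 h6

theorem is_caseA {D : Set α} {R Q En : α → α → Prop} {n : α} {C : α → Prop}
    {F : α → α → α → Prop} (h : NodeHyp D R Q En n C F) (ho : Old Q En n) :
    InvA D R Q En (Step D R Q En n C F) := by
  obtain ⟨i, c, hic, h1, h2⟩ := ho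
  have hfar := is_far_of_old h hic h1 h2
  obtain ⟨z, hz, hl⟩ := h.leastFar ⟨c, hfar⟩
  have hcz : c = z := ((h.child z).1 hz.1).2 i c hic h1 h2
  subst hcz
  have hinv := h.inv c hz.1
  obtain ⟨m, hm, hd⟩ := hinv.dom
  refine is_transfer hinv (is_step_far hz hl) (m := m) ?_ ?_
  · intro hm'
    exact hm (is_old_ext.2 (Or.inl hm'))
  · intro a
    rw [hd a, is_pos_ext]
    constructor
    · exact fun h3 => h3.1
    · intro h3
      refine ⟨h3, ?_, ?_⟩
      · intro h4
        rcases h.qneg n i m h4 with h5 | h5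
        · exact absurd h5 h2
        · exact (h3.2 i c hic).1 h5
      · intro h4
        rcases h.qneg m i n h4 with h5 | h5
        · exact (h3.2 i c hic).2 h5
        · exact absurd h5 h1

theorem is_srtrans {D : Set α} {R Q En : α → α → Prop} {n : α} {C : α → Prop}
    {F : α → α → α → Prop} (h : NodeHyp D R Q En n C F) {a b c : α} (h1 : SR R a b)
    (h2 : SR R b c) : SR R a c := by
  refine ⟨h.rtrans _ _ _ h1.1 h2.1, ?_⟩
  rintro rfl
  exact h1.2 (h.antisymm _ _ h1.1 h2.1)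

/-- if no entry lies strictly between `m` and `n`, both not old, then the positions agree -/
theorem is_pos_eq {D : Set α} {R Q En : α → α → Prop} {n : α} {C : α → Prop}
    {F : α → α → α → Prop} (h : NodeHyp D R Q En n C F) {p q : α} (hpq : Q p q)
    (hp : ¬ Old Q En p) (hq : ¬ Old Q En q)
    (hb : ¬ ∃ i c, En i c ∧ Q p i ∧ Q i q) (a : α) :
    Pos D R Q En p a ↔ Pos D R Q En q a := by
  have key : ∀ i c, En i c → ((Q i p ↔ Q i q) ∧ (Q p i ↔ Q q i)) := by
    intro i c hic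
    have hp' : Q i p ∨ Q p i := by
      by_contra hh
      push Not at hh
      exact hp ⟨i, c, hic, hh.1, hh.2⟩
    have hq' : Q i q ∨ Q q i := by
      by_contra hh
      push Not at hh
      exact hq ⟨i, c, hic, hh.1, hh.2⟩
    have hb' : ¬ (Q p i ∧ Q i q) := fun hh => hb ⟨i, c, hic, hh.1, hh.2⟩
    refine ⟨⟨fun h1 => h.qtrans _ _ _ h1 hpq, fun h1 => ?_⟩,
      ⟨fun h1 => ?_, fun h1 => h.qtrans _ _ _ hpq h1⟩⟩
    · rcases hp' with h2 | h2
      · exact h2
      · exact absurd ⟨h2, h1⟩ hb'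
    · rcases hq' with h2 | h2
      · exact absurd ⟨h1, h2⟩ hb'
      · exact h2
  constructor
  · rintro ⟨h1, h2⟩
    refine ⟨h1, fun i c hic => ?_⟩
    obtain ⟨k1, k2⟩ := key i c hic
    obtain ⟨l1, l2⟩ := h2 i c hic
    exact ⟨fun h3 => l1 (k1.2 h3), fun h3 => l2 (k2.2 h3)⟩
  · rintro ⟨h1, h2⟩
    refine ⟨h1, fun i c hic => ?_⟩
    obtain ⟨k1, k2⟩ := key i c hic
    obtain ⟨l1, l2⟩ := h2 i c hic
    exact ⟨fun h3 => l1 (k1.1 h3), fun h3 => l2 (k2.1 h3)⟩

theorem is_caseB {D : Set α} {R Q En : α → α → Prop} {n : α} {C : α → Prop}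
    {F : α → α → α → Prop} (h : NodeHyp D R Q En n C F) (ho : ¬ Old Q En n)
    (hf : ∃ z, Far D R Q En n C F z) :
    InvA D R Q En (Step D R Q En n C F) := by
  obtain ⟨z, hz, hl⟩ := h.leastFar hf
  have hinv := h.inv z hz.1
  obtain ⟨m, hm, hd⟩ := hinv.dom
  rw [is_old_ext] at hm
  push Not at hm
  obtain ⟨hm1, hm2⟩ := hm
  have hz2 : ¬ LtA D R Q En n F z ∧ ¬ RtA D R Q En n F z := by
    rcases hz.2 with h1 | h1
    · exact absurd h1 ho
    · exact h1
  have hPz : Pos D R Q En n z := ((h.child z).1 hz.1).1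
  refine is_transfer hinv (is_step_far hz hl) (m := m) hm1 ?_
  by_cases hnm : Q n m
  · have hmn : ¬ Q m n := fun h1 => h.qirr _ (h.qtrans _ _ _ hnm h1)
    have hd' : ∀ a, F z a a ↔ (Pos D R Q En m a ∧ SR R z a) := by
      intro a
      rw [hd a, is_pos_ext]
      exact ⟨fun h1 => ⟨h1.1, h1.2.1 hnm⟩, fun h1 => ⟨h1.1, fun _ => h1.2, fun h2 => absurd h2 hmn⟩⟩
    by_cases hb : ∃ i c, En i c ∧ Q n i ∧ Q i m
    · obtain ⟨i, c, hic, h1, h2⟩ := hb
      intro a
      rw [hd' a]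
      refine ⟨fun h3 => h3.1, fun h3 => ⟨h3, ?_⟩⟩
      exact is_srtrans h ((hPz.2 i c hic).2 h1) ((h3.2 i c hic).1 h2)
    · exfalso
      apply hz2.2
      refine ⟨fun a => ?_, hz2.1⟩
      rw [hd' a, is_pos_eq h hnm ho hm1 hb a]
  · have hmn : Q m n := hm2 hnm
    have hd' : ∀ a, F z a a ↔ (Pos D R Q En m a ∧ SR R a z) := by
      intro a
      rw [hd a, is_pos_ext]
      exact ⟨fun h1 => ⟨h1.1, h1.2.2 hmn⟩, fun h1 => ⟨h1.1, fun h2 => absurd h2 hnm, fun _ => h1.2⟩⟩
    by_cases hb : ∃ i c, En i c ∧ Q m i ∧ Q i n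
    · obtain ⟨i, c, hic, h1, h2⟩ := hb
      intro a
      rw [hd' a]
      refine ⟨fun h3 => h3.1, fun h3 => ⟨h3, ?_⟩⟩
      exact is_srtrans h ((h3.2 i c hic).2 h1) ((hPz.2 i c hic).1 h2)
    · exfalso
      apply hz2.1
      intro a
      rw [hd' a, is_pos_eq h hmn hm1 ho hb a]

theorem is_key_unique {D : Set α} {R Q En : α → α → Prop} {n : α} {C : α → Prop}
    {F : α → α → α → Prop} {z w a : α} (h1 : Key D R Q En n C F z a)
    (h2 : Key D R Q En n C F w a) : z = w := by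
  rcases lt_trichotomy z w with h3 | h3 | h3
  · exact absurd h1.1 (h2.2 z h3)
  · exact h3
  · exact absurd h2.1 (h1.2 w h3)

theorem is_caseC {D : Set α} {R Q En : α → α → Prop} {n : α} {C : α → Prop}
    {F : α → α → α → Prop} (h : NodeHyp D R Q En n C F)
    (hf : ∀ z, ¬ Far D R Q En n C F z) :
    InvA D R Q En (Step D R Q En n C F) := by
  have ho : ¬ Old Q En n := by
    rintro ⟨i, c, hic, h1, h2⟩
    exact hf c (is_far_of_old h hic h1 h2)
  have hC : ∀ z, C z ↔ Pos D R Q En n z := by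
    intro z
    rw [h.child z]
    exact ⟨fun h1 => h1.1, fun h1 => ⟨h1, fun i c hic h2 h3 => absurd ⟨i, c, hic, h2, h3⟩ ho⟩⟩
  have hT : ∀ z, C z → LtA D R Q En n F z ∨ RtA D R Q En n F z := by
    intro z hz
    by_contra hh
    push Not at hh
    exact hf z ⟨hz, Or.inr ⟨hh.1, hh.2⟩⟩
  have hstep : ∀ a b, Step D R Q En n C F a b ↔ ∃ z w, Key D R Q En n C F z a ∧
      Key D R Q En n C F w b ∧ (Bef D R Q En n F z w ∨ (z = w ∧ Hz D R Q En n F z a b)) := by
    intro a b
    constructor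
    · rintro (⟨z, hz, -⟩ | ⟨-, h1⟩)
      · exact absurd hz (hf z)
      · exact h1
    · exact fun h1 => Or.inr ⟨hf, h1⟩
  -- the elements of a piece
  have hpL : ∀ z a, Key D R Q En n C F z a → LtA D R Q En n F z → R a z := by
    intro z a hk hL
    rcases hk.1.2.2 with h1 | h1
    · exact h1.2
    · exact absurd hL h1.1.2
  have hpR : ∀ z a, Key D R Q En n C F z a → ¬ LtA D R Q En n F z →
      RtA D R Q En n F z ∧ R z a := by
    intro z a hk hL
    rcases hk.1.2.2 with h1 | h1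
    · exact absurd h1.1 hL
    · exact h1
  have hpiece : ∀ z a, Key D R Q En n C F z a → a ≠ z → F z a a := by
    intro z a hk hne
    by_cases hL : LtA D R Q En n F z
    · exact (hL a).2 ⟨hk.1.2.1, hpL z a hk hL, hne⟩
    · obtain ⟨h1, h2⟩ := hpR z a hk hL
      exact (h1.1 a).2 ⟨hk.1.2.1, h2, hne.symm⟩
  have hFne : ∀ z a, C z → F z a a → a ≠ z := by
    intro z a hz hF
    rcases hT z hz with h1 | h1
    · exact ((h1 a).1 hF).2.2
    · exact (((h1.1 a).1 hF).2.2).symm
  have hkey : ∀ a, Pos D R Q En n a → ∃ z, Key D R Q En n C F z a := by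
    intro a ha
    have hCa : C a := (hC a).2 ha
    apply h.leastCap a
    refine ⟨a, hCa, ha, ?_⟩
    have hr := h.refl a ha.1
    rcases hT a hCa with h1 | h1
    · exact Or.inl ⟨h1, hr⟩
    · exact Or.inr ⟨h1, hr⟩
  have hHrefl : ∀ z a, Key D R Q En n C F z a → Hz D R Q En n F z a a := by
    intro z a hk
    by_cases hne : a = z
    · by_cases hL : LtA D R Q En n F z
      · exact Or.inr (Or.inl ⟨hL, hne⟩)
      · exact Or.inr (Or.inr ⟨hL, hne⟩)
    · exact Or.inl (hpiece z a hk hne)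
  have hdom : ∀ a, Step D R Q En n C F a a ↔ Pos D R Q En n a := by
    intro a
    rw [hstep]
    constructor
    · rintro ⟨z, w, hk, -⟩
      exact hk.1.2.1
    · intro ha
      obtain ⟨z, hk⟩ := hkey a ha
      exact ⟨z, z, hk, hk, Or.inr ⟨rfl, hHrefl z a hk⟩⟩
  have hbirr : ∀ z, ¬ Bef D R Q En n F z z := by
    rintro z (⟨h1, h2⟩ | ⟨-, -, h1⟩ | ⟨-, -, h1⟩)
    · exact h2 h1
    · exact lt_irrefl _ h1
    · exact lt_irrefl _ h1
  have hbtr : ∀ x y z, Bef D R Q En n F x y → Bef D R Q En n F y z →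
      Bef D R Q En n F x z := by
    rintro x y z (⟨h1, h2⟩ | ⟨h1, h2, h3⟩ | ⟨h1, h2, h3⟩) (⟨k1, k2⟩ | ⟨k1, k2, k3⟩ | ⟨k1, k2, k3⟩)
    · exact absurd k1 h2
    · exact absurd k1 h2
    · exact Or.inl ⟨h1, k2⟩
    · exact Or.inl ⟨h1, k2⟩
    · exact Or.inr (Or.inl ⟨h1, k2, h3.trans k3⟩)
    · exact absurd h2 k1
    · exact absurd k1 h2
    · exact absurd k1 h2
    · exact Or.inr (Or.inr ⟨h1, k2, k3.trans h3⟩)
  have hbtot : ∀ z w, z ≠ w → Bef D R Q En n F z w ∨ Bef D R Q En n F w z := by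
    intro z w hne
    by_cases h1 : LtA D R Q En n F z <;> by_cases h2 : LtA D R Q En n F w
    · rcases lt_or_gt_of_ne hne with h3 | h3
      · exact Or.inl (Or.inr (Or.inl ⟨h1, h2, h3⟩))
      · exact Or.inr (Or.inr (Or.inl ⟨h2, h1, h3⟩))
    · exact Or.inl (Or.inl ⟨h1, h2⟩)
    · exact Or.inr (Or.inl ⟨h2, h1⟩)
    · rcases lt_or_gt_of_ne hne with h3 | h3
      · exact Or.inr (Or.inr (Or.inr ⟨h2, h1, h3⟩))
      · exact Or.inl (Or.inr (Or.inr ⟨h1, h2, h3⟩))
  refine ⟨⟨n, ho, hdom⟩, ?_, ?_, ?_, ?_, ?_⟩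
  · -- fld
    intro a b hab
    rw [hstep] at hab
    obtain ⟨z, w, h1, h2, -⟩ := hab
    exact ⟨(hdom a).2 h1.1.2.1, (hdom b).2 h2.1.2.1⟩
  · -- anti
    intro a b hab hba
    rw [hstep] at hab hba
    obtain ⟨z, w, h1, h2, h3⟩ := hab
    obtain ⟨w', z', k1, k2, k3⟩ := hba
    obtain rfl := is_key_unique h1 k2
    obtain rfl := is_key_unique h2 k1
    rcases h3 with h3 | ⟨rfl, h3⟩
    · rcases k3 with k3 | ⟨rfl, k3⟩
      · exact absurd (hbtr _ _ _ h3 k3) (hbirr _)
      · exact absurd h3 (hbirr _)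
    · rcases k3 with k3 | ⟨-, k3⟩
      · exact absurd k3 (hbirr _)
      · have hCz : C z := h1.1.1
        have hinv := h.inv z hCz
        rcases h3 with h3 | ⟨h3, rfl⟩ | ⟨h3, rfl⟩
        · rcases k3 with k3 | ⟨k3, rfl⟩ | ⟨k3, rfl⟩
          · exact hinv.anti _ _ h3 k3
          · exact absurd rfl (hFne _ _ hCz (hinv.fld _ _ h3).1)
          · exact absurd rfl (hFne _ _ hCz (hinv.fld _ _ h3).2)
        · rcases k3 with k3 | ⟨k3, rfl⟩ | ⟨k3, -⟩
          · exact absurd rfl (hFne _ _ hCz (hinv.fld _ _ k3).1)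
          · rfl
          · exact absurd h3 k3
        · rcases k3 with k3 | ⟨k3, -⟩ | ⟨k3, rfl⟩
          · exact absurd rfl (hFne _ _ hCz (hinv.fld _ _ k3).2)
          · exact absurd k3 h3
          · rfl
  · -- trans
    intro a b c hab hbc
    rw [hstep] at hab hbc ⊢
    obtain ⟨z, w, h1, h2, h3⟩ := hab
    obtain ⟨w', x, k1, k2, k3⟩ := hbc
    obtain rfl := is_key_unique h2 k1
    refine ⟨z, x, h1, k2, ?_⟩
    rcases h3 with h3 | ⟨rfl, h3⟩
    · rcases k3 with k3 | ⟨rfl, k3⟩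
      · exact Or.inl (hbtr _ _ _ h3 k3)
      · exact Or.inl h3
    · rcases k3 with k3 | ⟨rfl, k3⟩
      · exact Or.inl k3
      · refine Or.inr ⟨rfl, ?_⟩
        have hCz : C z := h1.1.1
        have hinv := h.inv z hCz
        rcases h3 with h3 | ⟨h3, rfl⟩ | ⟨h3, rfl⟩
        · rcases k3 with k3 | ⟨k3, rfl⟩ | ⟨k3, rfl⟩
          · exact Or.inl (hinv.trans _ _ _ h3 k3)
          · exact Or.inr (Or.inl ⟨k3, rfl⟩)
          · exact absurd rfl (hFne _ _ hCz (hinv.fld _ _ h3).2)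
        · rcases k3 with k3 | ⟨k3, rfl⟩ | ⟨k3, -⟩
          · exact absurd rfl (hFne _ _ hCz (hinv.fld _ _ k3).1)
          · exact Or.inr (Or.inl ⟨k3, rfl⟩)
          · exact absurd h3 k3
        · exact Or.inr (Or.inr ⟨h3, rfl⟩)
  · -- total
    intro a b haa hbb
    rw [hdom] at haa hbb
    obtain ⟨z, hz⟩ := hkey a haa
    obtain ⟨w, hw⟩ := hkey b hbb
    by_cases hne : z = w
    · subst hne
      have hinv := h.inv z hz.1.1
      have : Hz D R Q En n F z a b ∨ Hz D R Q En n F z b a := by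
        by_cases hL : LtA D R Q En n F z
        · by_cases ha : a = z
          · exact Or.inr (Or.inr (Or.inl ⟨hL, ha⟩))
          · by_cases hb : b = z
            · exact Or.inl (Or.inr (Or.inl ⟨hL, hb⟩))
            · rcases hinv.total a b (hpiece z a hz ha) (hpiece z b hw hb) with h1 | h1
              · exact Or.inl (Or.inl h1)
              · exact Or.inr (Or.inl h1)
        · by_cases ha : a = z
          · exact Or.inl (Or.inr (Or.inr ⟨hL, ha⟩))
          · by_cases hb : b = z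
            · exact Or.inr (Or.inr (Or.inr ⟨hL, hb⟩))
            · rcases hinv.total a b (hpiece z a hz ha) (hpiece z b hw hb) with h1 | h1
              · exact Or.inl (Or.inl h1)
              · exact Or.inr (Or.inl h1)
      rcases this with h1 | h1
      · exact Or.inl ((hstep a b).2 ⟨z, z, hz, hw, Or.inr ⟨rfl, h1⟩⟩)
      · exact Or.inr ((hstep b a).2 ⟨z, z, hw, hz, Or.inr ⟨rfl, h1⟩⟩)
    · rcases hbtot z w hne with h1 | h1
      · exact Or.inl ((hstep a b).2 ⟨z, w, hz, hw, Or.inl h1⟩)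
      · exact Or.inr ((hstep b a).2 ⟨w, z, hw, hz, Or.inl h1⟩)
  · -- ext
    intro a b haa hbb hR
    rw [hdom] at haa hbb
    obtain ⟨z, hz⟩ := hkey a haa
    obtain ⟨w, hw⟩ := hkey b hbb
    have e1 : LtA D R Q En n F w → z ≤ w := by
      intro hL
      by_contra hlt
      push Not at hlt
      refine hz.2 w hlt ⟨hw.1.1, haa, Or.inl ⟨hL, ?_⟩⟩
      exact h.rtrans _ _ _ hR (hpL w b hw hL)
    have e2 : ¬ LtA D R Q En n F z → w ≤ z := by
      intro hL
      by_contra hlt
      push Not at hlt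
      obtain ⟨h1, h2⟩ := hpR z a hz hL
      exact hw.2 z hlt ⟨hz.1.1, hbb, Or.inr ⟨h1, h.rtrans _ _ _ h2 hR⟩⟩
    rw [hstep]
    refine ⟨z, w, hz, hw, ?_⟩
    by_cases hne : z = w
    · subst hne
      refine Or.inr ⟨rfl, ?_⟩
      have hinv := h.inv z hz.1.1
      by_cases hL : LtA D R Q En n F z
      · by_cases hb : b = z
        · exact Or.inr (Or.inl ⟨hL, hb⟩)
        · by_cases ha : a = z
          · exfalso
            apply hb
            have h1 := hpL z b hw hL
            rw [ha] at hR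
            exact h.antisymm _ _ h1 hR
          · exact Or.inl (hinv.ext a b (hpiece z a hz ha) (hpiece z b hw hb) hR)
      · by_cases ha : a = z
        · exact Or.inr (Or.inr ⟨hL, ha⟩)
        · by_cases hb : b = z
          · exfalso
            apply ha
            obtain ⟨-, h2⟩ := hpR z a hz hL
            rw [hb] at hR
            exact h.antisymm _ _ hR h2
          · exact Or.inl (hinv.ext a b (hpiece z a hz ha) (hpiece z b hw hb) hR)
    · left
      by_cases h1 : LtA D R Q En n F z <;> by_cases h2 : LtA D R Q En n F w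
      · exact Or.inr (Or.inl ⟨h1, h2, lt_of_le_of_ne (e1 h2) hne⟩)
      · exact Or.inl ⟨h1, h2⟩
      · exact absurd (le_antisymm (e1 h2) (e2 h1)) hne
      · exact Or.inr (Or.inr ⟨h1, h2, lt_of_le_of_ne (e2 h1) (Ne.symm hne)⟩)

/-- the recursion step preserves the invariants -/
theorem inv_step {D : Set α} {R Q En : α → α → Prop} {n : α} {C : α → Prop}
    {F : α → α → α → Prop} (h : NodeHyp D R Q En n C F) :
    InvA D R Q En (Step D R Q En n C F) := by
  by_cases ho : Old Q En n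
  · exact is_caseA h ho
  · by_cases hf : ∃ z, Far D R Q En n C F z
    · exact is_caseB h ho hf
    · push Not at hf
      exact is_caseC h hf

end job

end Pool.Agent.Helper317.Atr
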