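import Mathlib

namespace Pool.Agent.Helper317.Atr

universe u

section job

variable {α : Type u} [LinearOrder α]

/-- the Kleene-Brouwer order of sequences; `En s i c` says that the `i`-th entry of `s` is `c` -/
def KBo (En : α → α → α → Prop) (s t : α) : Prop :=
  ∃ i, (∀ k, k < i → ∀ c, (En s k c ↔ En t k c)) ∧ ∃ a, En s i a ∧ ∀ b, En t i b → a < b

theorem KBo_irrefl (En : α → α → α → Prop) (s : α) : ¬ KBo En s s := by
  rintro ⟨i, _, a, h1, h2⟩
  exact lt_irrefl _ (h2 a h1)

theorem KBo_trans (En : α → α → α → Prop) (s t r : α) (h1 : KBo En s t) (h2 : KBo En t r) :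
    KBo En s r := by
  obtain ⟨i, hi, a, ha, hab⟩ := h1
  obtain ⟨j, hj, b, hb, hbc⟩ := h2
  rcases lt_trichotomy i j with h | h | h
  · refine ⟨i, fun k hk c => (hi k hk c).trans (hj k (hk.trans h) c), a, ha, fun c hc => ?_⟩
    exact hab c ((hj i h c).2 hc)
  · subst h
    exact ⟨i, fun k hk c => (hi k hk c).trans (hj k hk c), a, ha, fun c hc =>
      (hab b hb).trans (hbc c hc)⟩
  · exact ⟨j, fun k hk c => (hi k (hk.trans h) c).trans (hj k hk c), b, (hi j h b).2 hb, hbc⟩

/-- totality, given the first difference -/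
theorem KBo_total (En : α → α → α → Prop) (s t i : α)
    (hs : ∀ i a b, En s i a → En s i b → a = b) (ht : ∀ i a b, En t i a → En t i b → a = b)
    (hi : ∀ k, k < i → ∀ c, (En s k c ↔ En t k c)) (hd : ¬ ∀ c, (En s i c ↔ En t i c)) :
    KBo En s t ∨ KBo En t s := by
  by_cases h1 : ∃ a, En s i a
  · obtain ⟨a, ha⟩ := h1
    by_cases h2 : ∃ b, En t i b
    · obtain ⟨b, hb⟩ := h2
      rcases lt_trichotomy a b with h | h | h
      · exact Or.inl ⟨i, hi, a, ha, fun b' hb' => by rw [ht i b' b hb' hb]; exact h⟩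
      · subst h
        exact absurd (fun c => ⟨fun hc => by rw [hs i c a hc ha]; exact hb,
          fun hc => by rw [ht i c a hc hb]; exact ha⟩) hd
      · exact Or.inr ⟨i, fun k hk c => (hi k hk c).symm, b, hb, fun a' ha' => by
          rw [hs i a' a ha' ha]; exact h⟩
    · exact Or.inl ⟨i, hi, a, ha, fun b hb => absurd ⟨b, hb⟩ h2⟩
  · have h2 : ∃ b, En t i b := by
      by_contra h2
      exact hd fun c => ⟨fun hc => absurd ⟨c, hc⟩ h1, fun hc => absurd ⟨c, hc⟩ h2⟩
    obtain ⟨b, hb⟩ := h2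
    exact Or.inr ⟨i, fun k hk c => (hi k hk c).symm, b, hb, fun a ha => absurd ⟨a, ha⟩ h1⟩

end job

end Pool.Agent.Helper317.Atr
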