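import Mathlib
import Pool.Agent.Helper317.Atr.AY
import Pool.Agent.Helper317.Atr.KBo

namespace Pool.Agent.Helper317.Atr

open Pool.Agent.Helper617.RM IsModelRCA0

universe u

set_option linter.unusedSectionVars false
set_option linter.unusedVariables false

variable {N : L2Structure.{u}} [IsModelRCA0 N] [Sig1 N]

/-- entries -/
def En (s i c : N.M) : Prop := MemC (pr i c) s

theorem En_D0 {s t u : Ctx N → N.M} (hs : Tm s) (ht : Tm t) (hu : Tm u) :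
    D0 (fun v => En (s v) (t v) (u v)) := MemC_D0 (ht.pr hu) hs

theorem Sq.fn {s : N.M} (hs : Sq s) {i a b : N.M} (h1 : En s i a) (h2 : En s i b) : a = b := by
  obtain ⟨n, _, hn⟩ := hs
  exact hn.fn h1 h2

/-- the Kleene-Brouwer order -/
def Kb (s t : N.M) : Prop := KBo (fun s i c => En s i c) s t

theorem Kb_D0 : D0 (fun v : Ctx N => Kb (v 0) (v 1)) := by
  refine D0.ex (D0.and (D0.all (D0.imp (D0.lt (Tm.var 0) (Tm.var 1)) (D0.all (D0.iff ?_ ?_))))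
    (D0.ex (D0.and ?_ (D0.all (D0.imp ?_ ?_)))))
  · exact En_D0 (Tm.var 3) (Tm.var 1) (Tm.var 0)
  · exact En_D0 (Tm.var 4) (Tm.var 1) (Tm.var 0)
  · exact En_D0 (Tm.var 2) (Tm.var 1) (Tm.var 0)
  · exact En_D0 (Tm.var 4) (Tm.var 2) (Tm.var 0)
  · exact D0.lt (Tm.var 1) (Tm.var 0)

theorem Kb_irrefl (s : N.M) : ¬ Kb s s := KBo_irrefl _ s

theorem Kb_trans {s t r : N.M} (h1 : Kb s t) (h2 : Kb t r) : Kb s r := KBo_trans _ s t r h1 h2

theorem Kb_total {s t : N.M} (hs : Sq s) (ht : Sq t) (hne : s ≠ t) : Kb s t ∨ Kb t s := by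
  have hd : ∃ i, ¬ ∀ c, (En s i c ↔ En t i c) := by
    by_contra hcon
    push Not at hcon
    obtain ⟨n, _, hn⟩ := hs
    obtain ⟨m, _, hm⟩ := ht
    refine hne (isC_ext hn.1 hm.1 fun r => ⟨fun hr => ?_, fun hr => ?_⟩)
    · obtain ⟨i, z, _, rfl⟩ := hn.mem hr
      exact (hcon i z).1 hr
    · obtain ⟨i, z, _, rfl⟩ := hm.mem hr
      exact (hcon i z).2 hr
  obtain ⟨i0, hi0⟩ := hd
  obtain ⟨i, _, h1, h2⟩ := lnp_D0 (P := fun i => ¬ ∀ c, (En s i c ↔ En t i c))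
    (D0.not (D0.all (D0.iff (En_D0 (Tm.const s) (Tm.var 1) (Tm.var 0))
      (En_D0 (Tm.const t) (Tm.var 1) (Tm.var 0))))) i0 hi0
  exact KBo_total _ s t i (fun i a b h h' => Sq.fn hs h h') (fun i a b h h' => Sq.fn ht h h')
    (fun k hk => not_not.1 (h2 k hk)) h1

/-- an extension by one entry is smaller -/
theorem Kb_child {s t n : N.M} (hs : IsSq s n) (ht : IsSq t (n + 1)) (h : Ini s t) : Kb t s := by
  obtain ⟨z, hz⟩ := ht.ex (lt_succ_self' n)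
  refine ⟨n, fun k hk c => ⟨fun hc => ?_, fun hc => h.mem hc⟩, z, hz, fun b hb =>
    absurd (hs.lt hb) (lt_irrefl _)⟩
  obtain ⟨c', hc'⟩ := hs.ex hk
  have : c = c' := ht.fn hc (h.mem hc')
  rw [this]
  exact hc'

/-- the non-strict Kleene-Brouwer order on `T` -/
def KbLe (T : Set N.M) (s t : N.M) : Prop := s ∈ T ∧ t ∈ T ∧ (s = t ∨ Kb s t)

theorem KbLe_D0 {T : Set N.M} (hT : T ∈ N.Sets) : D0 (fun v => KbLe T (v 0) (v 1)) :=
  D0.and (D0.mem (Tm.var 0) hT) (D0.and (D0.mem (Tm.var 1) hT)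
    (D0.or (D0.eq (Tm.var 0) (Tm.var 1)) Kb_D0))

theorem KbLe_lin {T : Set N.M} (hsq : ∀ s ∈ T, Sq s) : IsLinearOrd N T (KbLe T) where
  dom x y h := ⟨h.1, h.2.1⟩
  refl x hx := ⟨hx, hx, Or.inl rfl⟩
  antisymm x y h h' := by
    rcases h.2.2 with h1 | h1
    · exact h1
    · rcases h'.2.2 with h2 | h2
      · exact h2.symm
      · exact absurd (Kb_trans h1 h2) (Kb_irrefl _)
  trans x y z h h' := by
    refine ⟨h.1, h'.2.1, ?_⟩
    rcases h.2.2 with h1 | h1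
    · subst h1; exact h'.2.2
    · rcases h'.2.2 with h2 | h2
      · subst h2; exact Or.inr h1
      · exact Or.inr (Kb_trans h1 h2)
  total x hx y hy := by
    by_cases h : x = y
    · exact Or.inl ⟨hx, hy, Or.inl h⟩
    · rcases Kb_total (hsq x hx) (hsq y hy) h with h | h
      · exact Or.inl ⟨hx, hy, Or.inr h⟩
      · exact Or.inr ⟨hy, hx, Or.inr h⟩

/-- `T` has no path in the structure -/
def NoPath (T : Set N.M) : Prop :=
  ¬ ∃ f : N.M → N.M, D0 (fun v => v 1 = f (v 0)) ∧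
    ∀ n, f n ∈ T ∧ IsSq (f n) n ∧ Ini (f n) (f (n + 1))

theorem kb_least {T : Set N.M} (hT : T ∈ N.Sets) (hsq : ∀ s ∈ T, Sq s)
    (hcl : ∀ s ∈ T, ∀ t, Ini t s → t ∈ T) (hnp : NoPath T) {Z : N.M → Prop}
    (hZ : D0 (fun v => Z (v 0))) {s0 : N.M} (hs0 : s0 ∈ T) (hz0 : Z s0) :
    ∃ s, s ∈ T ∧ Z s ∧ ∀ t, t ∈ T → Z t → t ≠ s → Kb s t := by
  by_contra hcon
  push Not at hcon
  apply hnp
  set Inv : N.M → Prop := fun s => s ∈ T ∧ ((∃ z, (z ∈ T ∧ Z z) ∧ Ini s z) ∧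
    ∀ z, z ∈ T ∧ Z z → (Ini s z ∨ Kb s z)) with hInvdef
  have hInv : D0 (fun v => Inv (v 0)) := by
    refine D0.and (D0.mem (Tm.var 0) hT) (D0.and (D0.ex (D0.and (D0.and (D0.mem (Tm.var 0) hT)
      (hZ.pred (Tm.var 0))) (Ini_D0 (Tm.var 1) (Tm.var 0)))) (D0.all (D0.imp (D0.and
        (D0.mem (Tm.var 0) hT) (hZ.pred (Tm.var 0))) (D0.or (Ini_D0 (Tm.var 1) (Tm.var 0))
          (Kb_D0.rel (Tm.var 1) (Tm.var 0))))))
  obtain ⟨e, he⟩ := exists_empty (N := N)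
  have hee : ∀ z ∈ T, Ini e z := fun z hz => ini_of he.sq (hsq z hz) fun r hr => by
    obtain ⟨i, _, hi, _⟩ := he.mem hr
    exact absurd hi (not_lt_of_ge (zero_le' i))
  have hIe : Inv e :=
    ⟨hcl s0 hs0 e (hee s0 hs0), ⟨s0, ⟨hs0, hz0⟩, hee s0 hs0⟩, fun z hz => Or.inl (hee z hz.1)⟩
  set St : N.M → N.M → Prop := fun s t => ∃ n, IsSq s n ∧ (IsSq t (n + 1) ∧ Ini s t) with hStdef
  have hSt : D0 (fun v => St (v 0) (v 1)) :=
    D0.ex (D0.and (IsSq_D0 (Tm.var 1) (Tm.var 0)) (D0.and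
      (IsSq_D0 (Tm.var 2) ((Tm.var 0).add Tm.one)) (Ini_D0 (Tm.var 1) (Tm.var 2))))
  have hstep : ∀ s, Inv s → ∃ t, St s t ∧ Inv t := by
    rintro s ⟨hsT, ⟨ζ0, hζ0, hsζ0⟩, hall⟩
    obtain ⟨n, _, hn⟩ := hsq s hsT
    have hW : ∃ z, ∃ ζ, (ζ ∈ T ∧ Z ζ) ∧ (Ini s ζ ∧ En ζ n z) := by
      by_contra hno
      push Not at hno
      have heq : ∀ ζ, ζ ∈ T → Z ζ → Ini s ζ → s = ζ := by
        intro ζ h1 h2 h3
        obtain ⟨m, _, hm⟩ := hsq ζ h1
        have hnm := h3.len_le hn hm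
        rcases lt_or_eq_of_le hnm with h | h
        · obtain ⟨z, hz⟩ := hm.ex h
          exact absurd hz (hno z ζ ⟨h1, h2⟩ h3)
        · subst h
          exact h3.eq hn hm
      have hsZ : Z s := by rw [heq ζ0 hζ0.1 hζ0.2 hsζ0]; exact hζ0.2
      obtain ⟨t, ht1, ht2, ht3, ht4⟩ := hcon s hsT hsZ
      rcases hall t ⟨ht1, ht2⟩ with h | h
      · exact ht3 (heq t ht1 ht2 h).symm
      · exact ht4 h
    obtain ⟨z0, hz0⟩ := hW
    obtain ⟨z, _, ⟨ζ, hζ, hsζ, hEn⟩, hmin⟩ := lnp_D0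
      (P := fun z => ∃ ζ, (ζ ∈ T ∧ Z ζ) ∧ (Ini s ζ ∧ En ζ n z))
      (D0.ex (D0.and (D0.and (D0.mem (Tm.var 0) hT) (hZ.pred (Tm.var 0)))
        (D0.and (Ini_D0 (Tm.const s) (Tm.var 0)) (En_D0 (Tm.var 0) (Tm.const n) (Tm.var 1)))))
      z0 hz0
    obtain ⟨m, _, hm⟩ := hsq ζ hζ.1
    have hnm : n + 1 ≤ m := add_one_le_iff'.2 (hm.lt hEn)
    obtain ⟨t, ht, htζ⟩ := exists_res hm hnm
    have hst : Ini s t := hsζ.comp htζ hn ht (lt_succ_self' n).le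
    have htz : En t n z := by
      obtain ⟨z', hz'⟩ := ht.ex (lt_succ_self' n)
      have : z = z' := hm.fn hEn (htζ.mem hz')
      rw [this]; exact hz'
    have hback : ∀ i c, i < n → En t i c → En s i c := by
      intro i c hi hc
      obtain ⟨c', hc'⟩ := hn.ex hi
      have : c = c' := ht.fn hc (hst.mem hc')
      rw [this]; exact hc'
    refine ⟨t, ⟨n, hn, ht, hst⟩, hcl ζ hζ.1 t htζ, ⟨ζ, hζ, htζ⟩, fun ζ' hζ' => ?_⟩
    rcases hall ζ' hζ' with h | h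
    · have hagree : ∀ k, k < n → ∀ c, (En t k c ↔ En ζ' k c) := by
        intro k hk c
        constructor
        · intro hc; exact h.mem (hback k c hk hc)
        · intro hc
          obtain ⟨c', hc'⟩ := hn.ex hk
          have : c = c' := Sq.fn (hsq ζ' hζ'.1) hc (h.mem hc')
          rw [this]
          exact hst.mem hc'
      by_cases hex : ∃ z', En ζ' n z'
      · obtain ⟨z', hz'⟩ := hex
        have hzz : z ≤ z' := by
          by_contra hlt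
          exact hmin z' (not_le.1 hlt) ⟨ζ', hζ', h, hz'⟩
        rcases lt_or_eq_of_le hzz with hlt | rfl
        · refine Or.inr ⟨n, hagree, z, htz, fun b hb => ?_⟩
          have : b = z' := Sq.fn (hsq ζ' hζ'.1) hb hz'
          rw [this]; exact hlt
        · refine Or.inl (ini_of ht.sq (hsq ζ' hζ'.1) fun r hr => ?_)
          obtain ⟨i, c, hi, rfl⟩ := ht.mem hr
          rcases lt_or_eq_of_le (lt_add_one_iff'.1 hi) with hi | rfl
          · exact (hagree i hi c).1 hr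
          · have : c = z := ht.fn hr htz
            rw [this]; exact hz'
      · exact Or.inr ⟨n, hagree, z, htz, fun b hb => absurd ⟨b, hb⟩ hex⟩
    · obtain ⟨i, h1, a, h2, h3⟩ := h
      have hin : i < n := hn.lt h2
      refine Or.inr ⟨i, fun k hk c => ?_, a, hst.mem h2, h3⟩
      rw [← h1 k hk c]
      exact ⟨fun hc => hback k c (hk.trans hin) hc, fun hc => hst.mem hc⟩
  obtain ⟨f, hf, hf0, hfI, hfS⟩ := dc hInv hSt hstep hIe
  have hlen : ∀ n, IsSq (f n) n := by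
    intro n
    refine ind_D0 (P := fun n => IsSq (f n) n) ?_ (by rw [hf0]; exact he) (fun n hn => ?_) n
    · exact D0.subst_fun hf (P := fun v w => IsSq w (v 0)) (IsSq_D0 (Tm.var 0) (Tm.var 1))
        (Tm.var 0)
    · obtain ⟨m, h1, h2, _⟩ := hfS n
      obtain rfl := h1.len_unique hn
      exact h2
  exact ⟨f, hf, fun n => ⟨(hfI n).1, hlen n, by
    obtain ⟨m, _, _, h⟩ := hfS n
    exact h⟩⟩

theorem kb_wo {T : Set N.M} (hT : T ∈ N.Sets) (hsq : ∀ s ∈ T, Sq s)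
    (hcl : ∀ s ∈ T, ∀ t, Ini t s → t ∈ T) (hnp : NoPath T) : IsWellOrd N T (KbLe T) where
  toIsLinearOrd := KbLe_lin hsq
  mem := hT
  rel := codeRel_mem_D0 (KbLe_D0 hT)
  noDesc := by
    rintro ⟨f, hf, hd⟩
    have hfD : D0 (fun v => v 1 = f (v 0)) := D0.of_codeRel (R := fun x y => y = f x) hf
    obtain ⟨s, hs, ⟨i, hi⟩, hmin⟩ := kb_least hT hsq hcl hnp (Z := fun s => ∃ i, s = f i)
      (D0.ex (hfD.rel (R := fun x y => y = f x) (Tm.var 0) (Tm.var 1)))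
      (s0 := f 0) (hd 0).1.2.1 ⟨0, rfl⟩
    have h1 := hd i
    have h2 : f (N.add i N.one) ∈ T := h1.1.1
    have h3 := hmin _ h2 ⟨_, rfl⟩ (by rw [hi]; exact h1.2)
    rw [hi] at h3
    rcases h1.1.2.2 with h4 | h4
    · exact h1.2 h4
    · exact Kb_irrefl _ (Kb_trans h3 h4)

end Pool.Agent.Helper317.Atr
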