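import Mathlib
import Pool.Agent.Helper317.Atr.KB
import Pool.Agent.Helper317.Atr.Core

namespace Pool.Agent.Helper317.Atr

open Pool.Agent.Helper617.RM IsModelRCA0

universe u

set_option linter.unusedSectionVars false
set_option linter.unusedVariables false

variable {N : L2Structure.{u}} [IsModelRCA0 N] [Sig1 N]

/-- the data: a partial order on `D` and a dense preorder `Q` of the numbers (an enumeration of
the rationals) -/
structure Data (D : Set N.M) (R Q : N.M → N.M → Prop) : Prop where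
  memD : D ∈ N.Sets
  defR : D0 (fun v => R (v 0) (v 1))
  po : IsPartialOrd N D R
  defQ : D0 (fun v => Q (v 0) (v 1))
  qirr : ∀ i, ¬ Q i i
  qtrans : ∀ i j k, Q i j → Q j k → Q i k
  qneg : ∀ i j k, Q i k → Q i j ∨ Q j k
  dense : ∀ i k, Q i k → ∃ j, Q i j ∧ Q j k
  two : ∃ i j, Q i j

/-- `g` is an embedding of the dense preorder `Q` -/
def EmbQ (D : Set N.M) (R Q : N.M → N.M → Prop) (g : N.M → N.M) : Prop :=
  D0 (fun v => v 1 = g (v 0)) ∧ (∀ i, g i ∈ D) ∧ (∀ i j, Q i j → SR R (g i) (g j)) ∧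
    ∀ i j, ¬ Q i j → ¬ Q j i → g i = g j

/-- the finite partial embeddings -/
def Node (D : Set N.M) (R Q : N.M → N.M → Prop) (s : N.M) : Prop :=
  Sq s ∧ (∀ i c, En s i c → c ∈ D) ∧
    (∀ i c j d, En s i c → En s j d → Q i j → SR R c d) ∧
    (∀ i c j d, En s i c → En s j d → ¬ Q i j → ¬ Q j i → c = d)

def TT (D : Set N.M) (R Q : N.M → N.M → Prop) : Set N.M := {s | Node D R Q s}

def Chn (D : Set N.M) (R Q : N.M → N.M → Prop) (s n z t : N.M) : Prop :=
  IsSq s n ∧ IsSq t (n + 1) ∧ Ini s t ∧ En t n z ∧ Node D R Q t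

variable {D : Set N.M} {R Q : N.M → N.M → Prop}

theorem Data.SR_D0 (h : Data D R Q) {s t : Ctx N → N.M} (hs : Tm s) (ht : Tm t) :
    D0 (fun v => SR R (s v) (t v)) := D0.and (h.defR.rel hs ht) (D0.eq hs ht).not

theorem Data.Q_D0 (h : Data D R Q) {s t : Ctx N → N.M} (hs : Tm s) (ht : Tm t) :
    D0 (fun v => Q (s v) (t v)) := h.defQ.rel hs ht

theorem Data.Node_D0 (h : Data D R Q) {s : Ctx N → N.M} (hs : Tm s) :
    D0 (fun v => Node D R Q (s v)) := by
  refine D0.and (Sq_D0 hs) (D0.and (D0.all (D0.all (D0.imp ?_ ?_))) (D0.and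
    (D0.all (D0.all (D0.all (D0.all (D0.imp ?_ (D0.imp ?_ (D0.imp ?_ ?_)))))))
    (D0.all (D0.all (D0.all (D0.all (D0.imp ?_ (D0.imp ?_ (D0.imp ?_ (D0.imp ?_ ?_))))))))))
  · exact En_D0 hs.tail.tail (Tm.var 1) (Tm.var 0)
  · exact D0.mem (Tm.var 0) h.memD
  · exact En_D0 hs.tail.tail.tail.tail (Tm.var 3) (Tm.var 2)
  · exact En_D0 hs.tail.tail.tail.tail (Tm.var 1) (Tm.var 0)
  · exact h.Q_D0 (Tm.var 3) (Tm.var 1)
  · exact h.SR_D0 (Tm.var 2) (Tm.var 0)
  · exact En_D0 hs.tail.tail.tail.tail (Tm.var 3) (Tm.var 2)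
  · exact En_D0 hs.tail.tail.tail.tail (Tm.var 1) (Tm.var 0)
  · exact (h.Q_D0 (Tm.var 3) (Tm.var 1)).not
  · exact (h.Q_D0 (Tm.var 1) (Tm.var 3)).not
  · exact D0.eq (Tm.var 2) (Tm.var 0)

theorem Data.Chn_D0 (h : Data D R Q) {s n z t : Ctx N → N.M} (hs : Tm s) (hn : Tm n) (hz : Tm z)
    (ht : Tm t) : D0 (fun v => Chn D R Q (s v) (n v) (z v) (t v)) :=
  D0.and (IsSq_D0 hs hn) (D0.and (IsSq_D0 ht (hn.add Tm.one)) (D0.and (Ini_D0 hs ht)
    (D0.and (En_D0 ht hn hz) (h.Node_D0 ht))))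

theorem Data.Pos_D0 (h : Data D R Q) {s m a : Ctx N → N.M} (hs : Tm s) (hm : Tm m) (ha : Tm a) :
    D0 (fun v => Pos D R Q (En (s v)) (m v) (a v)) := by
  refine D0.and (D0.mem ha h.memD) (D0.all (D0.all (D0.imp ?_ (D0.and (D0.imp ?_ ?_)
    (D0.imp ?_ ?_)))))
  · exact En_D0 hs.tail.tail (Tm.var 1) (Tm.var 0)
  · exact h.Q_D0 (Tm.var 1) hm.tail.tail
  · exact h.SR_D0 (Tm.var 0) ha.tail.tail
  · exact h.Q_D0 hm.tail.tail (Tm.var 1)
  · exact h.SR_D0 ha.tail.tail (Tm.var 0)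

theorem Data.Old_D0 (h : Data D R Q) {s m : Ctx N → N.M} (hs : Tm s) (hm : Tm m) :
    D0 (fun v => Old Q (En (s v)) (m v)) := by
  refine D0.ex (D0.ex (D0.and ?_ (D0.and ?_ ?_)))
  · exact En_D0 hs.tail.tail (Tm.var 1) (Tm.var 0)
  · exact (h.Q_D0 (Tm.var 1) hm.tail.tail).not
  · exact (h.Q_D0 hm.tail.tail (Tm.var 1)).not

theorem TT_mem (h : Data D R Q) : TT D R Q ∈ N.Sets := comp_D0 (h.Node_D0 (Tm.var 0))

theorem TT_sq {s : N.M} (hs : s ∈ TT D R Q) : Sq s := hs.1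

theorem TT_closed {s : N.M} (hs : s ∈ TT D R Q) {t : N.M} (ht : Ini t s) : t ∈ TT D R Q :=
  ⟨ht.1, fun i c h1 => hs.2.1 i c (ht.mem h1),
    fun i c j d h1 h2 => hs.2.2.1 i c j d (ht.mem h1) (ht.mem h2),
    fun i c j d h1 h2 => hs.2.2.2 i c j d (ht.mem h1) (ht.mem h2)⟩

theorem Chn.mem {s n z t : N.M} (h : Chn D R Q s n z t) : t ∈ TT D R Q := h.2.2.2.2

/-- the entries of a child -/
theorem Chn.en {s n z t : N.M} (h : Chn D R Q s n z t) (i c : N.M) :
    En t i c ↔ Ext (En s) n z i c := by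
  obtain ⟨h1, h2, h3, h4, h5⟩ := h
  constructor
  · intro hc
    rcases lt_or_eq_of_le (lt_add_one_iff'.1 (h2.lt hc)) with hi | rfl
    · obtain ⟨c', hc'⟩ := h1.ex hi
      have : c = c' := h2.fn hc (h3.mem hc')
      rw [this]; exact Or.inl hc'
    · exact Or.inr ⟨rfl, h2.fn hc h4⟩
  · rintro (hc | ⟨rfl, rfl⟩)
    · exact h3.mem hc
    · exact h4

theorem Chn.en_eq {s n z t : N.M} (h : Chn D R Q s n z t) : En t = Ext (En s) n z := by
  funext i c
  exact propext (h.en i c)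

theorem Chn.unique {s n z t t' : N.M} (h : Chn D R Q s n z t) (h' : Chn D R Q s n z t') :
    t = t' := app_unique h.1 h.2.1 h'.2.1 h.2.2.1 h'.2.2.1 h.2.2.2.1 h'.2.2.2.1

theorem child_iff (h : Data D R Q) {s n z : N.M} (hs : Node D R Q s) (hn : IsSq s n) :
    (∃ t, Chn D R Q s n z t) ↔ (Pos D R Q (En s) n z ∧
      ∀ i c, En s i c → ¬ Q i n → ¬ Q n i → c = z) := by
  constructor
  · rintro ⟨t, h1, h2, h3, h4, h5⟩
    refine ⟨⟨h5.2.1 n z h4, fun i c hc => ⟨fun hq => ?_, fun hq => ?_⟩⟩, fun i c hc hq hq' => ?_⟩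
    · exact h5.2.2.1 i c n z (h3.mem hc) h4 hq
    · exact h5.2.2.1 n z i c h4 (h3.mem hc) hq
    · exact h5.2.2.2 i c n z (h3.mem hc) h4 hq hq'
  · rintro ⟨⟨hzD, hpos⟩, heq⟩
    obtain ⟨t, h1, h2, h3⟩ := exists_app hn z
    have hen : ∀ i c, En t i c → En s i c ∨ (i = n ∧ c = z) := by
      intro i c hc
      rcases lt_or_eq_of_le (lt_add_one_iff'.1 (h1.lt hc)) with hi | rfl
      · obtain ⟨c', hc'⟩ := hn.ex hi
        have : c = c' := h1.fn hc (h2.mem hc')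
        rw [this]; exact Or.inl hc'
      · exact Or.inr ⟨rfl, h1.fn hc h3⟩
    refine ⟨t, hn, h1, h2, h3, h1.sq, ?_, ?_, ?_⟩
    · intro i c hc
      rcases hen i c hc with hc | ⟨_, rfl⟩
      · exact hs.2.1 i c hc
      · exact hzD
    · intro i c j d hc hd hq
      rcases hen i c hc with hc | ⟨rfl, rfl⟩ <;> rcases hen j d hd with hd | ⟨rfl, rfl⟩
      · exact hs.2.2.1 i c j d hc hd hq
      · exact (hpos i c hc).1 hq
      · exact (hpos j d hd).2 hq
      · exact absurd hq (h.qirr _)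
    · intro i c j d hc hd hq hq'
      rcases hen i c hc with hc | ⟨rfl, rfl⟩ <;> rcases hen j d hd with hd | ⟨rfl, rfl⟩
      · exact hs.2.2.2 i c j d hc hd hq hq'
      · exact heq i c hc hq hq'
      · exact (heq j d hd hq' hq).symm
      · rfl

/-- a path gives an embedding -/
theorem noPath_of (h : Data D R Q) (hno : ¬ ∃ g, EmbQ D R Q g) : NoPath (TT D R Q) := by
  rintro ⟨f, hf, hfn⟩
  apply hno
  have hmono : ∀ i d, Ini (f i) (f (i + d)) := by
    intro i d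
    refine ind_D0 (P := fun d => Ini (f i) (f (i + d))) ?_ ?_ ?_ d
    · exact D0.subst_fun hf (P := fun v w => Ini (f i) w) (Ini_D0 (Tm.const _) (Tm.var 0))
        ((Tm.const i).add (Tm.var 0))
    · rw [add_zero]; exact Ini.refl (hfn i).2.1.sq
    · intro d hd
      rw [← add_assoc]
      exact hd.trans (hfn (i + d)).2.2
  have hmono' : ∀ i j, i ≤ j → Ini (f i) (f j) := by
    intro i j hij
    obtain ⟨d, rfl⟩ := exists_sub hij
    exact hmono i d
  have hex : ∀ n, ∃ z, En (f (n + 1)) n z := fun n => (hfn (n + 1)).2.1.ex (lt_succ_self' n)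
  choose g hg using hex
  have hg' : ∀ n m, n < m → En (f m) n (g n) := fun n m hnm =>
    (hmono' (n + 1) m (add_one_le_iff'.2 hnm)).mem (hg n)
  refine ⟨g, ?_, fun i => ?_, fun i j hij => ?_, fun i j hij hji => ?_⟩
  · refine D0.congr (R := fun v => En (f (v 0 + 1)) (v 0) (v 1)) ?_ fun v => ?_
    · exact D0.subst_fun hf (P := fun v w => En w (v 0) (v 1))
        (En_D0 (Tm.var 0) (Tm.var 1) (Tm.var 2)) ((Tm.var 0).add Tm.one)
    · constructor
      · intro h1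
        exact Sq.fn (hfn (v 0 + 1)).2.1.sq h1 (hg (v 0))
      · intro h1
        rw [h1]; exact hg (v 0)
  · exact (hfn (i + 1)).1.2.1 i _ (hg i)
  · have hi : i < max i j + 1 := lt_add_one_iff'.2 (le_max_left _ _)
    have hj : j < max i j + 1 := lt_add_one_iff'.2 (le_max_right _ _)
    exact (hfn (max i j + 1)).1.2.2.1 i _ j _ (hg' i _ hi) (hg' j _ hj) hij
  · have hi : i < max i j + 1 := lt_add_one_iff'.2 (le_max_left _ _)
    have hj : j < max i j + 1 := lt_add_one_iff'.2 (le_max_right _ _)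
    exact (hfn (max i j + 1)).1.2.2.2 i _ j _ (hg' i _ hi) (hg' j _ hj) hij hji

end Pool.Agent.Helper317.Atr
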