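import Mathlib
import Pool.Agent.Helper317.Atr.Tree

namespace Pool.Agent.Helper317.Atr

open Pool.Agent.Helper617.RM IsModelRCA0

universe u

set_option linter.unusedSectionVars false
set_option linter.unusedVariables false

variable {N : L2Structure.{u}} [IsModelRCA0 N] [Sig1 N]

/-- `z` is the last entry of a child of `s` -/
def Cs (D : Set N.M) (R Q : N.M → N.M → Prop) (s n z : N.M) : Prop := ∃ t, Chn D R Q s n z t

/-- the order coded by `Y` at the child of `s` with last entry `z` -/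
def Fy (D : Set N.M) (R Q : N.M → N.M → Prop) (Y : Set N.M) (s n z a b : N.M) : Prop :=
  ∃ t, Chn D R Q s n z t ∧ pr (pr a b) t ∈ Y

variable {D : Set N.M} {R Q : N.M → N.M → Prop}

section defin

variable (h : Data D R Q) {s n z w a b : Ctx N → N.M} (hs : Tm s) (hn : Tm n)
  (hz : Tm z) (hw : Tm w) (ha : Tm a) (hb : Tm b)

include h

theorem Data.Cs_D0 (hs : Tm s) (hn : Tm n) (hz : Tm z) :
    D0 (fun v => Cs D R Q (s v) (n v) (z v)) :=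
  D0.ex (h.Chn_D0 hs.tail hn.tail hz.tail (Tm.var 0))

theorem Data.Fy_AY (hs : Tm s) (hn : Tm n) (hz : Tm z) (ha : Tm a) (hb : Tm b) :
    AY (fun v Y => Fy D R Q Y (s v) (n v) (z v) (a v) (b v)) :=
  AY.ex (AY.and (AY.of_D0 (h.Chn_D0 hs.tail hn.tail hz.tail (Tm.var 0)))
    (AY.memY ((ha.tail.pr hb.tail).pr (Tm.var 0))))

theorem Data.LtA_AY (hs : Tm s) (hn : Tm n) (hz : Tm z) :
    AY (fun v Y => LtA D R Q (En (s v)) (n v) (Fy D R Q Y (s v) (n v)) (z v)) :=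
  AY.all (AY.iff (h.Fy_AY hs.tail hn.tail hz.tail (Tm.var 0) (Tm.var 0))
    (AY.of_D0 (D0.and (h.Pos_D0 hs.tail hn.tail (Tm.var 0)) (h.SR_D0 (Tm.var 0) hz.tail))))

theorem Data.RtA_AY (hs : Tm s) (hn : Tm n) (hz : Tm z) :
    AY (fun v Y => RtA D R Q (En (s v)) (n v) (Fy D R Q Y (s v) (n v)) (z v)) :=
  AY.and (AY.all (AY.iff (h.Fy_AY hs.tail hn.tail hz.tail (Tm.var 0) (Tm.var 0))
    (AY.of_D0 (D0.and (h.Pos_D0 hs.tail hn.tail (Tm.var 0)) (h.SR_D0 hz.tail (Tm.var 0))))))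
    (h.LtA_AY hs hn hz).not

theorem Data.Far_AY (hs : Tm s) (hn : Tm n) (hz : Tm z) :
    AY (fun v Y => Far D R Q (En (s v)) (n v) (Cs D R Q (s v) (n v)) (Fy D R Q Y (s v) (n v))
      (z v)) :=
  AY.and (AY.of_D0 (h.Cs_D0 hs hn hz)) (AY.or (AY.of_D0 (h.Old_D0 hs hn))
    (AY.and (h.LtA_AY hs hn hz).not (h.RtA_AY hs hn hz).not))

theorem Data.Cap_AY (hs : Tm s) (hn : Tm n) (hz : Tm z) (ha : Tm a) :
    AY (fun v Y => Cap D R Q (En (s v)) (n v) (Cs D R Q (s v) (n v)) (Fy D R Q Y (s v) (n v))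
      (z v) (a v)) :=
  AY.and (AY.of_D0 (h.Cs_D0 hs hn hz)) (AY.and (AY.of_D0 (h.Pos_D0 hs hn ha))
    (AY.or (AY.and (h.LtA_AY hs hn hz) (AY.of_D0 (h.defR.rel ha hz)))
      (AY.and (h.RtA_AY hs hn hz) (AY.of_D0 (h.defR.rel hz ha)))))

theorem Data.Key_AY (hs : Tm s) (hn : Tm n) (hz : Tm z) (ha : Tm a) :
    AY (fun v Y => Key D R Q (En (s v)) (n v) (Cs D R Q (s v) (n v)) (Fy D R Q Y (s v) (n v))
      (z v) (a v)) :=
  AY.and (h.Cap_AY hs hn hz ha) (AY.all (AY.imp (AY.of_D0 (D0.lt (Tm.var 0) hz.tail))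
    (h.Cap_AY hs.tail hn.tail (Tm.var 0) ha.tail).not))

theorem Data.Bef_AY (hs : Tm s) (hn : Tm n) (hz : Tm z) (hw : Tm w) :
    AY (fun v Y => Bef D R Q (En (s v)) (n v) (Fy D R Q Y (s v) (n v)) (z v) (w v)) :=
  AY.or (AY.and (h.LtA_AY hs hn hz) (h.LtA_AY hs hn hw).not)
    (AY.or (AY.and (h.LtA_AY hs hn hz) (AY.and (h.LtA_AY hs hn hw) (AY.of_D0 (D0.lt hz hw))))
      (AY.and (h.LtA_AY hs hn hz).not (AY.and (h.LtA_AY hs hn hw).not (AY.of_D0 (D0.lt hw hz)))))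

theorem Data.Hz_AY (hs : Tm s) (hn : Tm n) (hz : Tm z) (ha : Tm a) (hb : Tm b) :
    AY (fun v Y => Hz D R Q (En (s v)) (n v) (Fy D R Q Y (s v) (n v)) (z v) (a v) (b v)) :=
  AY.or (h.Fy_AY hs hn hz ha hb) (AY.or (AY.and (h.LtA_AY hs hn hz) (AY.of_D0 (D0.eq hb hz)))
    (AY.and (h.LtA_AY hs hn hz).not (AY.of_D0 (D0.eq ha hz))))

theorem Data.Step_AY (hs : Tm s) (hn : Tm n) (ha : Tm a) (hb : Tm b) :
    AY (fun v Y => Step D R Q (En (s v)) (n v) (Cs D R Q (s v) (n v)) (Fy D R Q Y (s v) (n v))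
      (a v) (b v)) := by
  refine AY.or (AY.ex (AY.and (h.Far_AY hs.tail hn.tail (Tm.var 0)) (AY.and (AY.all (AY.imp
    (AY.of_D0 (D0.lt (Tm.var 0) (Tm.var 1))) (h.Far_AY hs.tail.tail hn.tail.tail
      (Tm.var 0)).not)) (h.Fy_AY hs.tail hn.tail (Tm.var 0) ha.tail hb.tail))))
    (AY.and (AY.all (h.Far_AY hs.tail hn.tail (Tm.var 0)).not) (AY.ex (AY.ex (AY.and
      (h.Key_AY hs.tail.tail hn.tail.tail (Tm.var 1) ha.tail.tail) (AY.and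
      (h.Key_AY hs.tail.tail hn.tail.tail (Tm.var 0) hb.tail.tail) (AY.or
      (h.Bef_AY hs.tail.tail hn.tail.tail (Tm.var 1) (Tm.var 0)) (AY.and
      (AY.of_D0 (D0.eq (Tm.var 1) (Tm.var 0)))
      (h.Hz_AY hs.tail.tail hn.tail.tail (Tm.var 1) ha.tail.tail hb.tail.tail))))))))

end defin

/-- the transfinite recursion along the Kleene-Brouwer order -/
theorem exists_rec (h : Data D R Q) (hA : ArithTransRec N) (hno : ¬ ∃ g, EmbQ D R Q g) :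
    ∃ Y ∈ N.Sets, ∀ s ∈ TT D R Q, ∀ n, IsSq s n → ∀ a b, (pr (pr a b) s ∈ Y ↔
      Step D R Q (En s) n (Cs D R Q s n) (Fy D R Q Y s n) a b) := by
  have hW := kb_wo (TT_mem h) (fun s hs => TT_sq hs) (fun s hs t ht => TT_closed hs ht)
    (noPath_of h hno)
  have hΘ : AY (fun (v : Ctx N) Z => ∃ a b, v 1 = pr a b ∧ ∃ n, IsSq (v 0) n ∧
      Step D R Q (En (v 0)) n (Cs D R Q (v 0) n) (Fy D R Q Z (v 0) n) a b) := by
    refine AY.ex (AY.ex (AY.and (AY.of_D0 (D0.eq (Tm.var 3) ((Tm.var 1).pr (Tm.var 0))))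
      (AY.ex (AY.and (AY.of_D0 (IsSq_D0 (Tm.var 3) (Tm.var 0))) ?_))))
    exact h.Step_AY (Tm.var 3) (Tm.var 0) (Tm.var 2) (Tm.var 1)
  obtain ⟨E, hE, hrec⟩ := atr_rec hA hW (Θ := fun s x Z => ∃ a b, x = pr a b ∧ ∃ n, IsSq s n ∧
      Step D R Q (En s) n (Cs D R Q s n) (Fy D R Q Z s n) a b) hΘ
  set Y : Set N.M := {p | ∃ x i, p = pr x i ∧ i ∈ TT D R Q ∧ E i x} with hYdef
  have hY : Y ∈ N.Sets := by
    refine comp_D0 (P := fun p => ∃ x i, p = pr x i ∧ i ∈ TT D R Q ∧ E i x) ?_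
    exact D0.ex (D0.ex (D0.and (D0.eq (Tm.var 2) ((Tm.var 1).pr (Tm.var 0)))
      (D0.and (h.Node_D0 (Tm.var 0)) (hE.rel (Tm.var 0) (Tm.var 1)))))
  have hYm : ∀ x i, pr x i ∈ Y ↔ i ∈ TT D R Q ∧ E i x := by
    intro x i
    constructor
    · rintro ⟨x', i', h1, h2, h3⟩
      obtain ⟨rfl, rfl⟩ := pr_inj h1
      exact ⟨h2, h3⟩
    · rintro ⟨h2, h3⟩
      exact ⟨x, i, rfl, h2, h3⟩
  refine ⟨Y, hY, fun s hs n hn a b => ?_⟩
  have hF : Fy D R Q {p | ∃ x' i, p = pr x' i ∧ KbLe (TT D R Q) i s ∧ i ≠ s ∧ E i x'} s n =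
      Fy D R Q Y s n := by
    funext z a b
    refine propext ⟨?_, ?_⟩
    · rintro ⟨t, ht, x', i, h1, h2, h3, h4⟩
      obtain ⟨rfl, rfl⟩ := pr_inj h1
      exact ⟨t, ht, (hYm _ _).2 ⟨ht.mem, h4⟩⟩
    · rintro ⟨t, ht, h1⟩
      obtain ⟨h2, h3⟩ := (hYm _ _).1 h1
      have hkb : Kb t s := Kb_child ht.1 ht.2.1 ht.2.2.1
      refine ⟨t, ht, _, t, rfl, ⟨h2, hs, Or.inr hkb⟩, fun e => ?_, h3⟩
      rw [e] at hkb
      exact Kb_irrefl _ hkb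
  rw [hYm, hrec s hs]
  constructor
  · rintro ⟨_, a', b', h1, n', h2, h3⟩
    obtain ⟨rfl, rfl⟩ := pr_inj h1
    obtain rfl := h2.len_unique hn
    rwa [hF] at h3
  · intro h1
    refine ⟨hs, a, b, rfl, n, hn, ?_⟩
    rwa [hF]

end Pool.Agent.Helper317.Atr
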