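import Mathlib
import Pool.Agent.Helper317.Atr.Core

namespace Pool.Agent.Helper317.Atr

universe u

section job

variable {α : Type u} [LinearOrder α]

/-- an embedding of an interval of a dense order into the order constructed at a node gives an
embedding of a smaller interval into the order constructed at one of the children -/
theorem scat_step {D : Set α} {R Q En : α → α → Prop} {n : α} {C : α → Prop}
    {F : α → α → α → Prop} (h : NodeHyp D R Q En n C F)
    (dense : ∀ i k, Q i k → ∃ j, Q i j ∧ Q j k) (f : α → α) (q q' : α) (hq : Q q q')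
    (hf : ∀ r s, Q q r → Q r s → Q s q' → Step D R Q En n C F (f r) (f s) ∧ f r ≠ f s)
    (l1 : (∃ z, ∃ r, Q q r ∧ Q r q' ∧ Key D R Q En n C F z (f r) ∧ LtA D R Q En n F z) →
      ∃ z, (∃ r, Q q r ∧ Q r q' ∧ Key D R Q En n C F z (f r) ∧ LtA D R Q En n F z) ∧
        ∀ w, w < z → ¬ ∃ r, Q q r ∧ Q r q' ∧ Key D R Q En n C F w (f r) ∧ LtA D R Q En n F w)
    (l2 : (∃ z, ∃ r, Q q r ∧ Q r q' ∧ Key D R Q En n C F z (f r) ∧ ¬ LtA D R Q En n F z) →
      ∃ z, (∃ r, Q q r ∧ Q r q' ∧ Key D R Q En n C F z (f r) ∧ ¬ LtA D R Q En n F z) ∧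
        ∀ w, w < z → ¬ ∃ r, Q q r ∧ Q r q' ∧ Key D R Q En n C F w (f r) ∧
          ¬ LtA D R Q En n F w) :
    ∃ z, C z ∧ ∃ p p', Q p p' ∧ ∀ r s, Q p r → Q r s → Q s p' →
      F z (f r) (f s) ∧ f r ≠ f s := by
  classical
  by_cases hfar : ∃ z, Far D R Q En n C F z
  · obtain ⟨z0, hz0, hl0⟩ := h.leastFar hfar
    refine ⟨z0, hz0.1, q, q', hq, fun r s h1 h2 h3 => ?_⟩
    obtain ⟨hs, hne⟩ := hf r s h1 h2 h3
    refine ⟨?_, hne⟩
    rcases hs with ⟨z, hz, hl, hF⟩ | ⟨hno, -⟩
    · have : z = z0 := by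
        rcases lt_trichotomy z z0 with hlt | heq | hlt
        · exact absurd hz (hl0 z hlt)
        · exact heq
        · exact absurd hz0 (hl z0 hlt)
      rw [← this]
      exact hF
    · exact absurd hz0 (hno z0)
  · have hno : ∀ z, ¬ Far D R Q En n C F z := fun z hz => hfar ⟨z, hz⟩
    have hkind : ∀ z, C z → LtA D R Q En n F z ∨ RtA D R Q En n F z := by
      intro z hz
      by_contra hcon
      push Not at hcon
      exact hno z ⟨hz, Or.inr hcon⟩
    have huniq : ∀ z w a, Key D R Q En n C F z a → Key D R Q En n C F w a → z = w := by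
      intro z w a hz hw
      rcases lt_trichotomy z w with hlt | heq | hlt
      · exact absurd hz.1 (hw.2 z hlt)
      · exact heq
      · exact absurd hw.1 (hz.2 w hlt)
    have hstep : ∀ r s, Q q r → Q r s → Q s q' → ∃ z w, Key D R Q En n C F z (f r) ∧
        Key D R Q En n C F w (f s) ∧
        (Bef D R Q En n F z w ∨ (z = w ∧ Hz D R Q En n F z (f r) (f s))) := by
      intro r s h1 h2 h3
      rcases (hf r s h1 h2 h3).1 with ⟨z, hz, -, -⟩ | ⟨-, hk⟩
      · exact absurd hz (hno z)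
      · exact hk
    obtain ⟨r0, hr0, hr0'⟩ := dense q q' hq
    obtain ⟨s0, hs0, hs0'⟩ := dense r0 q' hr0'
    obtain ⟨z, w, hkz, -, -⟩ := hstep r0 s0 hr0 hs0 hs0'
    by_cases hL : LtA D R Q En n F z
    · obtain ⟨z0, ⟨r1, hr1, hr1', hk1, hLt⟩, hmin⟩ := l1 ⟨z, r0, hr0, hr0', hkz, hL⟩
      have hC0 : C z0 := hk1.1.1
      -- all points left of `r1` have key `z0`
      have hall : ∀ r, Q q r → Q r r1 → Key D R Q En n C F z0 (f r) ∧
          Hz D R Q En n F z0 (f r) (f r1) := by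
        intro r h1 h2
        obtain ⟨z', w', hz', hw', hor⟩ := hstep r r1 h1 h2 hr1'
        have hw0 : w' = z0 := huniq _ _ _ hw' hk1
        subst hw0
        rcases hor with hB | ⟨heq, hH⟩
        · rcases hB with ⟨-, hn⟩ | ⟨hLz, -, hlt⟩ | ⟨-, hn, -⟩
          · exact absurd hLt hn
          · exact absurd ⟨r, h1, h.qtrans _ _ _ h2 hr1', hz', hLz⟩ (hmin z' hlt)
          · exact absurd hLt hn
        · subst heq
          exact ⟨hz', hH⟩
      refine ⟨z0, hC0, q, r1, hr1, fun r s h1 h2 h3 => ?_⟩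
      have h3' : Q s q' := h.qtrans _ _ _ h3 hr1'
      have h1s : Q q s := h.qtrans _ _ _ h1 h2
      have h2r : Q r r1 := h.qtrans _ _ _ h2 h3
      refine ⟨?_, (hf r s h1 h2 h3').2⟩
      have hkr := (hall r h1 h2r).1
      obtain ⟨hks, hHs⟩ := hall s h1s h3
      have hsne : f s ≠ z0 := by
        intro heq
        rcases hHs with hF | ⟨-, hr⟩ | ⟨hn, -⟩
        · have hFF := ((h.inv z0 hC0).fld _ _ hF).1
          exact ((hLt (f s)).mp hFF).2.2 heq
        · exact (hf s r1 h1s h3 hr1').2 (by rw [heq, hr])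
        · exact hn hLt
      obtain ⟨z', w', hz', hw', hor⟩ := hstep r s h1 h2 h3'
      have hz0 : z' = z0 := huniq _ _ _ hz' hkr
      have hw0 : w' = z0 := huniq _ _ _ hw' hks
      subst hz0
      subst hw0
      rcases hor with hB | ⟨-, hH⟩
      · rcases hB with ⟨-, hn⟩ | ⟨-, -, hlt⟩ | ⟨hn, -, -⟩
        · exact absurd hLt hn
        · exact absurd hlt (lt_irrefl _)
        · exact absurd hLt hn
      · rcases hH with hF | ⟨-, hr⟩ | ⟨hn, -⟩
        · exact hF
        · exact absurd hr hsne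
        · exact absurd hLt hn
    · obtain ⟨z0, ⟨r1, hr1, hr1', hk1, hnLt⟩, hmin⟩ := l2 ⟨z, r0, hr0, hr0', hkz, hL⟩
      have hC0 : C z0 := hk1.1.1
      have hRt : RtA D R Q En n F z0 := (hkind z0 hC0).resolve_left hnLt
      have hall : ∀ r, Q r1 r → Q r q' → Key D R Q En n C F z0 (f r) ∧
          Hz D R Q En n F z0 (f r1) (f r) := by
        intro r h1 h2
        obtain ⟨z', w', hz', hw', hor⟩ := hstep r1 r hr1 h1 h2
        have hw0 : z' = z0 := huniq _ _ _ hz' hk1
        subst hw0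
        rcases hor with hB | ⟨heq, hH⟩
        · rcases hB with ⟨hn, -⟩ | ⟨hn, -, -⟩ | ⟨-, hLw, hlt⟩
          · exact absurd hn hnLt
          · exact absurd hn hnLt
          · exact absurd ⟨r, h.qtrans _ _ _ hr1 h1, h2, hw', hLw⟩ (hmin w' hlt)
        · subst heq
          exact ⟨hw', hH⟩
      refine ⟨z0, hC0, r1, q', hr1', fun r s h1 h2 h3 => ?_⟩
      have h1' : Q q r := h.qtrans _ _ _ hr1 h1
      have h1s : Q r1 s := h.qtrans _ _ _ h1 h2
      have h2r : Q r q' := h.qtrans _ _ _ h2 h3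
      refine ⟨?_, (hf r s h1' h2 h3).2⟩
      have hks := (hall s h1s h3).1
      obtain ⟨hkr, hHr⟩ := hall r h1 h2r
      have hrne : f r ≠ z0 := by
        intro heq
        rcases hHr with hF | ⟨hn, -⟩ | ⟨-, hr⟩
        · have hFF := ((h.inv z0 hC0).fld _ _ hF).2
          exact ((hRt.1 (f r)).mp hFF).2.2 heq.symm
        · exact hnLt hn
        · exact (hf r1 r hr1 h1 h2r).2 (by rw [heq, hr])
      obtain ⟨z', w', hz', hw', hor⟩ := hstep r s h1' h2 h3
      have hz0 : z' = z0 := huniq _ _ _ hz' hkr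
      have hw0 : w' = z0 := huniq _ _ _ hw' hks
      subst hz0
      subst hw0
      rcases hor with hB | ⟨-, hH⟩
      · rcases hB with ⟨hn, -⟩ | ⟨hn, -, -⟩ | ⟨-, -, hlt⟩
        · exact absurd hn hnLt
        · exact absurd hn hnLt
        · exact absurd hlt (lt_irrefl _)
      · rcases hH with hF | ⟨hn, -⟩ | ⟨-, hr⟩
        · exact hF
        · exact absurd hn hnLt
        · exact absurd hr hrne

end job

end Pool.Agent.Helper317.Atr
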