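import Mathlib
import Pool.Agent.Helper317.Atr.Rec
import Pool.Agent.Helper317.Atr.InvStep
import Pool.Agent.Helper317.Atr.ScatStep

namespace Pool.Agent.Helper317.Atr

open Pool.Agent.Helper617.RM IsModelRCA0

universe u

set_option linter.unusedSectionVars false
set_option linter.unusedVariables false

variable {N : L2Structure.{u}} [IsModelRCA0 N] [Sig1 N]

variable {D : Set N.M} {R Q : N.M → N.M → Prop}

/-- the order coded by `Y` at the node `s` -/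
def Ly (Y : Set N.M) (s a b : N.M) : Prop := pr (pr a b) s ∈ Y

theorem Ly_D0 {Y : Set N.M} (hY : Y ∈ N.Sets) {s a b : Ctx N → N.M} (hs : Tm s) (ha : Tm a)
    (hb : Tm b) : D0 (fun v => Ly Y (s v) (a v) (b v)) := D0.mem ((ha.pr hb).pr hs) hY

theorem Data.InvA_D0 (h : Data D R Q) {Y : Set N.M} (hY : Y ∈ N.Sets) :
    D0 (fun v => InvA D R Q (En (v 0)) (Ly Y (v 0))) := by
  refine D0.congr (R := fun v =>
    (∃ m, ¬ Old Q (En (v 0)) m ∧ ∀ a, (Ly Y (v 0) a a ↔ Pos D R Q (En (v 0)) m a)) ∧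
    ((∀ a b, Ly Y (v 0) a b → Ly Y (v 0) a a ∧ Ly Y (v 0) b b) ∧
    ((∀ a b, Ly Y (v 0) a b → Ly Y (v 0) b a → a = b) ∧
    ((∀ a b c, Ly Y (v 0) a b → Ly Y (v 0) b c → Ly Y (v 0) a c) ∧
    ((∀ a b, Ly Y (v 0) a a → Ly Y (v 0) b b → Ly Y (v 0) a b ∨ Ly Y (v 0) b a) ∧
    (∀ a b, Ly Y (v 0) a a → Ly Y (v 0) b b → R a b → Ly Y (v 0) a b)))))) ?_ fun v => ?_
  · refine D0.and (D0.ex (D0.and (h.Old_D0 (Tm.var 1) (Tm.var 0)).not (D0.all (D0.iff ?_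
      (h.Pos_D0 (Tm.var 2) (Tm.var 1) (Tm.var 0)))))) (D0.and (D0.all (D0.all (D0.imp ?_
      (D0.and ?_ ?_)))) (D0.and (D0.all (D0.all (D0.imp ?_ (D0.imp ?_ ?_)))) (D0.and
      (D0.all (D0.all (D0.all (D0.imp ?_ (D0.imp ?_ ?_))))) (D0.and
      (D0.all (D0.all (D0.imp ?_ (D0.imp ?_ (D0.or ?_ ?_))))) (D0.all (D0.all (D0.imp ?_
      (D0.imp ?_ (D0.imp ?_ ?_)))))))))
    · exact Ly_D0 hY (Tm.var 2) (Tm.var 0) (Tm.var 0)
    · exact Ly_D0 hY (Tm.var 2) (Tm.var 1) (Tm.var 0)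
    · exact Ly_D0 hY (Tm.var 2) (Tm.var 1) (Tm.var 1)
    · exact Ly_D0 hY (Tm.var 2) (Tm.var 0) (Tm.var 0)
    · exact Ly_D0 hY (Tm.var 2) (Tm.var 1) (Tm.var 0)
    · exact Ly_D0 hY (Tm.var 2) (Tm.var 0) (Tm.var 1)
    · exact D0.eq (Tm.var 1) (Tm.var 0)
    · exact Ly_D0 hY (Tm.var 3) (Tm.var 2) (Tm.var 1)
    · exact Ly_D0 hY (Tm.var 3) (Tm.var 1) (Tm.var 0)
    · exact Ly_D0 hY (Tm.var 3) (Tm.var 2) (Tm.var 0)
    · exact Ly_D0 hY (Tm.var 2) (Tm.var 1) (Tm.var 1)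
    · exact Ly_D0 hY (Tm.var 2) (Tm.var 0) (Tm.var 0)
    · exact Ly_D0 hY (Tm.var 2) (Tm.var 1) (Tm.var 0)
    · exact Ly_D0 hY (Tm.var 2) (Tm.var 0) (Tm.var 1)
    · exact Ly_D0 hY (Tm.var 2) (Tm.var 1) (Tm.var 1)
    · exact Ly_D0 hY (Tm.var 2) (Tm.var 0) (Tm.var 0)
    · exact h.defR.rel (Tm.var 1) (Tm.var 0)
    · exact Ly_D0 hY (Tm.var 2) (Tm.var 1) (Tm.var 0)
  · constructor
    · rintro ⟨h1, h2, h3, h4, h5, h6⟩
      exact ⟨h1, h2, h3, h4, h5, h6⟩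
    · rintro ⟨h1, h2, h3, h4, h5, h6⟩
      exact ⟨h1, h2, h3, h4, h5, h6⟩

theorem Fy_eq {Y : Set N.M} {s n z t : N.M} (ht : Chn D R Q s n z t) :
    Fy D R Q Y s n z = Ly Y t := by
  funext a b
  refine propext ⟨?_, fun h => ⟨t, ht, h⟩⟩
  rintro ⟨t', ht', h⟩
  rw [ht.unique ht']
  exact h

theorem nodeHyp (h : Data D R Q) {Y : Set N.M} (hY : Y ∈ N.Sets) {s n : N.M}
    (hs : s ∈ TT D R Q) (hn : IsSq s n)
    (hinv : ∀ z t, Chn D R Q s n z t → InvA D R Q (En t) (Ly Y t)) :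
    NodeHyp D R Q (En s) n (Cs D R Q s n) (Fy D R Q Y s n) where
  refl := h.po.refl
  antisymm := h.po.antisymm
  rtrans := h.po.trans
  qirr := h.qirr
  qtrans := h.qtrans
  qneg := h.qneg
  enD := hs.2.1
  enQ := hs.2.2.1
  enE := hs.2.2.2
  child z := child_iff h hs hn
  inv z hz := by
    obtain ⟨t, ht⟩ := hz
    rw [Fy_eq ht, ← ht.en_eq]
    exact hinv z t ht
  leastFar := by
    rintro ⟨z0, hz0⟩
    obtain ⟨z, _, h1, h2⟩ := lnp_D0 (P := fun z => Far D R Q (En s) n (Cs D R Q s n)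
      (Fy D R Q Y s n) z) ((h.Far_AY (Tm.const s) (Tm.const n) (Tm.var 0)).d0 hY) z0 hz0
    exact ⟨z, h1, h2⟩
  leastCap := by
    rintro a ⟨z0, hz0⟩
    obtain ⟨z, _, h1, h2⟩ := lnp_D0 (P := fun z => Cap D R Q (En s) n (Cs D R Q s n)
      (Fy D R Q Y s n) z a)
      ((h.Cap_AY (Tm.const s) (Tm.const n) (Tm.var 0) (Tm.const a)).d0 hY) z0 hz0
    exact ⟨z, h1, h2⟩

/-- the recursion equation -/
def RecEq (D : Set N.M) (R Q : N.M → N.M → Prop) (Y : Set N.M) : Prop :=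
  ∀ s ∈ TT D R Q, ∀ n, IsSq s n → ∀ a b, (pr (pr a b) s ∈ Y ↔
      Step D R Q (En s) n (Cs D R Q s n) (Fy D R Q Y s n) a b)

theorem Ly_eq {Y : Set N.M} (hrec : RecEq D R Q Y) {s n : N.M} (hs : s ∈ TT D R Q)
    (hn : IsSq s n) : Ly Y s = Step D R Q (En s) n (Cs D R Q s n) (Fy D R Q Y s n) := by
  funext a b
  exact propext (hrec s hs n hn a b)

theorem all_inv (h : Data D R Q) (hno : ¬ ∃ g, EmbQ D R Q g) {Y : Set N.M} (hY : Y ∈ N.Sets)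
    (hrec : RecEq D R Q Y) : ∀ s ∈ TT D R Q, InvA D R Q (En s) (Ly Y s) := by
  intro s0 hs0
  by_contra hcon
  obtain ⟨s, hs, hsn, hmin⟩ := kb_least (TT_mem h) (fun s hs => TT_sq hs)
    (fun s hs t ht => TT_closed hs ht) (noPath_of h hno)
    (Z := fun s => ¬ InvA D R Q (En s) (Ly Y s)) (h.InvA_D0 hY).not hs0 hcon
  apply hsn
  obtain ⟨n, _, hn⟩ := TT_sq hs
  have hinv : ∀ z t, Chn D R Q s n z t → InvA D R Q (En t) (Ly Y t) := by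
    intro z t ht
    by_contra hc
    have hkb : Kb t s := Kb_child ht.1 ht.2.1 ht.2.2.1
    have hne : t ≠ s := fun e => by rw [e] at hkb; exact Kb_irrefl _ hkb
    exact Kb_irrefl _ (Kb_trans hkb (hmin t ht.mem hc hne))
  rw [Ly_eq hrec hs hn]
  exact inv_step (nodeHyp h hY hs hn hinv)

theorem not_emb (h : Data D R Q) (hno : ¬ ∃ g, EmbQ D R Q g) {Y : Set N.M} (hY : Y ∈ N.Sets)
    (hrec : RecEq D R Q Y) {e : N.M} (he : e ∈ TT D R Q) {L : N.M → N.M → Prop}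
    (hL : ∀ a b, L a b → Ly Y e a b) : ¬ ∃ g, EmbQ D L Q g := by
  rintro ⟨g, hg, hgD, hg1, hg2⟩
  have hinv := all_inv h hno hY hrec
  obtain ⟨q0, q1, hq01⟩ := h.two
  have hgD0 : D0 (fun v => ∃ q q', Q q q' ∧ ∀ r r', Q q r → Q r r' → Q r' q' →
      Ly Y (v 0) (g r) (g r') ∧ g r ≠ g r') := by
    refine D0.ex (D0.ex (D0.and (h.Q_D0 (Tm.var 1) (Tm.var 0)) (D0.all (D0.all (D0.imp
      (h.Q_D0 (Tm.var 3) (Tm.var 1)) (D0.imp (h.Q_D0 (Tm.var 1) (Tm.var 0)) (D0.imp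
      (h.Q_D0 (Tm.var 0) (Tm.var 2)) ?_)))))))
    refine D0.subst_fun hg (P := fun (v : Ctx N) w => Ly Y (v 4) w (g (v 0)) ∧ w ≠ g (v 0)) ?_
      (Tm.var 1)
    refine D0.subst_fun hg (P := fun (v : Ctx N) w => Ly Y (v 5) (v 0) w ∧ v 0 ≠ w) ?_
      (Tm.var 1)
    exact D0.and (Ly_D0 hY (Tm.var 6) (Tm.var 1) (Tm.var 0)) (D0.eq (Tm.var 1) (Tm.var 0)).not
  obtain ⟨s, hs, ⟨q, q', hq, hemb⟩, hmin⟩ := kb_least (TT_mem h) (fun s hs => TT_sq hs)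
    (fun s hs t ht => TT_closed hs ht) (noPath_of h hno)
    (Z := fun s => ∃ q q', Q q q' ∧ ∀ r r', Q q r → Q r r' → Q r' q' →
      Ly Y s (g r) (g r') ∧ g r ≠ g r') hgD0 he
    ⟨q0, q1, hq01, fun r r' _ hrr _ => ⟨hL _ _ (hg1 r r' hrr).1, (hg1 r r' hrr).2⟩⟩
  obtain ⟨n, _, hn⟩ := TT_sq hs
  have hN := nodeHyp h hY hs hn (fun z t ht => hinv t ht.mem)
  have hkey : ∀ {z y : Ctx N → N.M}, Tm z → Tm y → D0 (fun v => Key D R Q (En s) n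
      (Cs D R Q s n) (Fy D R Q Y s n) (z v) (y v)) := fun hz hy =>
    (h.Key_AY (Tm.const s) (Tm.const n) hz hy).d0 hY
  have hlt : ∀ {z : Ctx N → N.M}, Tm z → D0 (fun v => LtA D R Q (En s) n
      (Fy D R Q Y s n) (z v)) := fun hz => (h.LtA_AY (Tm.const s) (Tm.const n) hz).d0 hY
  obtain ⟨z, hz, p, p', hp, hpe⟩ := scat_step hN h.dense g q q' hq
    (fun r r' h1 h2 h3 => by
      have := hemb r r' h1 h2 h3
      rw [Ly_eq hrec hs hn] at this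
      exact this)
    (by
      rintro ⟨z0, hz0⟩
      obtain ⟨z, _, h1, h2⟩ := lnp_D0 (P := fun z => ∃ r, Q q r ∧ Q r q' ∧
        Key D R Q (En s) n (Cs D R Q s n) (Fy D R Q Y s n) z (g r) ∧
          LtA D R Q (En s) n (Fy D R Q Y s n) z) (by
        refine D0.ex (D0.and (h.Q_D0 (Tm.const q) (Tm.var 0)) (D0.and
          (h.Q_D0 (Tm.var 0) (Tm.const q')) (D0.and ?_ (hlt (Tm.var 1)))))
        exact D0.subst_fun hg (P := fun (v : Ctx N) w => Key D R Q (En s) n (Cs D R Q s n)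
          (Fy D R Q Y s n) (v 1) w) (hkey (Tm.var 2) (Tm.var 0)) (Tm.var 0)) z0 hz0
      exact ⟨z, h1, h2⟩)
    (by
      rintro ⟨z0, hz0⟩
      obtain ⟨z, _, h1, h2⟩ := lnp_D0 (P := fun z => ∃ r, Q q r ∧ Q r q' ∧
        Key D R Q (En s) n (Cs D R Q s n) (Fy D R Q Y s n) z (g r) ∧
          ¬ LtA D R Q (En s) n (Fy D R Q Y s n) z) (by
        refine D0.ex (D0.and (h.Q_D0 (Tm.const q) (Tm.var 0)) (D0.and
          (h.Q_D0 (Tm.var 0) (Tm.const q')) (D0.and ?_ (hlt (Tm.var 1)).not)))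
        exact D0.subst_fun hg (P := fun (v : Ctx N) w => Key D R Q (En s) n (Cs D R Q s n)
          (Fy D R Q Y s n) (v 1) w) (hkey (Tm.var 2) (Tm.var 0)) (Tm.var 0)) z0 hz0
      exact ⟨z, h1, h2⟩)
  obtain ⟨t, ht⟩ := hz
  rw [Fy_eq ht] at hpe
  have hkb : Kb t s := Kb_child ht.1 ht.2.1 ht.2.2.1
  have hne : t ≠ s := fun e => by rw [e] at hkb; exact Kb_irrefl _ hkb
  exact Kb_irrefl _ (Kb_trans hkb (hmin t ht.mem ⟨p, p', hp, hpe⟩ hne))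

/-- the extendibility of `η`, for an arbitrary enumeration `Q` of a dense order -/
theorem ext_Q (h : Data D R Q) (hA : ArithTransRec N) (hno : ¬ ∃ g, EmbQ D R Q g) :
    ∃ L : N.M → N.M → Prop, D0 (fun v => L (v 0) (v 1)) ∧ IsLinearOrd N D L ∧
      (∀ x y, R x y → L x y) ∧ ¬ ∃ g, EmbQ D L Q g := by
  obtain ⟨Y, hY, hrec⟩ := exists_rec h hA hno
  have hrec' : RecEq D R Q Y := hrec
  obtain ⟨e, he⟩ := exists_empty (N := N)
  have hen : ∀ i c, ¬ En e i c := fun i c hc => absurd (he.lt hc) (not_lt_of_ge (zero_le' i))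
  have heT : e ∈ TT D R Q := ⟨he.sq, fun i c hc => absurd hc (hen i c),
    fun i c j d hc => absurd hc (hen i c), fun i c j d hc => absurd hc (hen i c)⟩
  obtain ⟨⟨m, hm, hdom⟩, h2, h3, h4, h5, h6⟩ := all_inv h hno hY hrec' e heT
  have hdom' : ∀ a, Ly Y e a a ↔ a ∈ D := by
    intro a
    rw [hdom a]
    exact ⟨fun h => h.1, fun h => ⟨h, fun i c hc => absurd hc (hen i c)⟩⟩
  refine ⟨Ly Y e, Ly_D0 hY (Tm.const e) (Tm.var 0) (Tm.var 1), ⟨⟨?_, ?_, h3, h4⟩, ?_⟩, ?_,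
    not_emb h hno hY hrec' heT fun a b hab => hab⟩
  · intro x y hxy
    exact ⟨(hdom' x).1 (h2 x y hxy).1, (hdom' y).1 (h2 x y hxy).2⟩
  · intro x hx
    exact (hdom' x).2 hx
  · intro x hx y hy
    exact h5 x y ((hdom' x).2 hx) ((hdom' y).2 hy)
  · intro x y hxy
    exact h6 x y ((hdom' x).2 (h.po.dom x y hxy).1) ((hdom' y).2 (h.po.dom x y hxy).2) hxy

end Pool.Agent.Helper317.Atr
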