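import Mathlib
import Pool.Agent.Helper317.Atr.Main
import Pool.Agent.Helper317.Atr.Frac

namespace Pool.Agent.Helper317.Atr

open Pool.Agent.Helper617.RM IsModelRCA0

universe u

set_option linter.unusedSectionVars false
set_option linter.unusedVariables false

variable {N : L2Structure.{u}} [IsModelRCA0 N]

/-- `(a, b, c)` is the fraction with number `i`; numbers that are not codes stand for `0` -/
def Val (i a b c : N.M) : Prop :=
  i = pr (pr a b) c ∨ ((¬ ∃ x y z, i = pr (pr x y) z) ∧ a = 0 ∧ b = 0 ∧ c = 0)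

/-- the order of the fractions with numbers `i`, `j` -/
def Qr (i j : N.M) : Prop :=
  ∃ a b c a' b' c', Val i a b c ∧ Val j a' b' c' ∧ FL a b c a' b' c'

theorem Val_ex (i : N.M) : ∃ a b c, Val i a b c := by
  by_cases h : ∃ x y z, i = pr (pr x y) z
  · obtain ⟨x, y, z, h⟩ := h
    exact ⟨x, y, z, Or.inl h⟩
  · exact ⟨0, 0, 0, Or.inr ⟨h, rfl, rfl, rfl⟩⟩

theorem Val_unique {i a b c a' b' c' : N.M} (h : Val i a b c) (h' : Val i a' b' c') :
    a = a' ∧ b = b' ∧ c = c' := by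
  rcases h with h | ⟨h, rfl, rfl, rfl⟩ <;> rcases h' with h' | ⟨h', rfl, rfl, rfl⟩
  · obtain ⟨h1, h2⟩ := pr_inj (h.symm.trans h')
    obtain ⟨h3, h4⟩ := pr_inj h1
    exact ⟨h3, h4, h2⟩
  · exact absurd ⟨_, _, _, h⟩ h'
  · exact absurd ⟨_, _, _, h'⟩ h
  · exact ⟨rfl, rfl, rfl⟩

theorem Val_pr (a b c : N.M) : Val (pr (pr a b) c) a b c := Or.inl rfl

theorem Qr_iff {i j a b c a' b' c' : N.M} (h : Val i a b c) (h' : Val j a' b' c') :
    Qr i j ↔ FL a b c a' b' c' := by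
  constructor
  · rintro ⟨x, y, z, x', y', z', h1, h2, h3⟩
    obtain ⟨rfl, rfl, rfl⟩ := Val_unique h h1
    obtain ⟨rfl, rfl, rfl⟩ := Val_unique h' h2
    exact h3
  · intro h1
    exact ⟨a, b, c, a', b', c', h, h', h1⟩

section sig

variable [Sig1 N]

theorem Val_D0 {i a b c : Ctx N → N.M} (hi : Tm i) (ha : Tm a) (hb : Tm b) (hc : Tm c) :
    D0 (fun v => Val (i v) (a v) (b v) (c v)) := by
  refine D0.or (D0.eq hi ((ha.pr hb).pr hc)) (D0.and (D0.not (D0.ex (D0.ex (D0.ex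
    (D0.eq hi.tail.tail.tail (((Tm.var 2).pr (Tm.var 1)).pr (Tm.var 0)))))))
    (D0.and (D0.eq ha Tm.zero) (D0.and (D0.eq hb Tm.zero) (D0.eq hc Tm.zero))))

theorem Qr_D0 : D0 (fun v : Ctx N => Qr (v 0) (v 1)) := by
  refine D0.ex (D0.ex (D0.ex (D0.ex (D0.ex (D0.ex (D0.and ?_ (D0.and ?_ ?_)))))))
  · exact Val_D0 (Tm.var 6) (Tm.var 5) (Tm.var 4) (Tm.var 3)
  · exact Val_D0 (Tm.var 7) (Tm.var 2) (Tm.var 1) (Tm.var 0)
  · exact D0.lt (((Tm.var 5).mul ((Tm.var 0).add Tm.one)).add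
      ((Tm.var 1).mul ((Tm.var 3).add Tm.one))) (((Tm.var 2).mul ((Tm.var 3).add Tm.one)).add
      ((Tm.var 4).mul ((Tm.var 0).add Tm.one)))

theorem data_of {D : Set N.M} {R : N.M → N.M → Prop} (hD : D ∈ N.Sets) (hR : RelIn N R)
    (hpo : IsPartialOrd N D R) : Data D R Qr where
  memD := hD
  defR := D0.of_codeRel hR
  po := hpo
  defQ := Qr_D0
  qirr i := by
    obtain ⟨a, b, c, h⟩ := Val_ex i
    rw [Qr_iff h h]
    exact FL_irrefl a b c
  qtrans i j k := by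
    obtain ⟨a, b, c, h⟩ := Val_ex i
    obtain ⟨a', b', c', h'⟩ := Val_ex j
    obtain ⟨a'', b'', c'', h''⟩ := Val_ex k
    rw [Qr_iff h h', Qr_iff h' h'', Qr_iff h h'']
    exact FL_trans a b c a' b' c' a'' b'' c''
  qneg i j k := by
    obtain ⟨a, b, c, h⟩ := Val_ex i
    obtain ⟨a', b', c', h'⟩ := Val_ex j
    obtain ⟨a'', b'', c'', h''⟩ := Val_ex k
    rw [Qr_iff h h', Qr_iff h' h'', Qr_iff h h'']
    exact FL_neg a b c a' b' c' a'' b'' c''
  dense i k := by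
    obtain ⟨a, b, c, h⟩ := Val_ex i
    obtain ⟨a', b', c', h'⟩ := Val_ex k
    rw [Qr_iff h h']
    intro hlt
    have := FL_dense a b c a' b' c' hlt
    refine ⟨pr (pr (a + a') (b + b')) (c + c' + 1), ?_, ?_⟩
    · rw [Qr_iff h (Val_pr _ _ _)]; exact this.1
    · rw [Qr_iff (Val_pr _ _ _) h']; exact this.2
  two := ⟨pr (pr 0 0) 0, pr (pr 1 0) 0, (Qr_iff (Val_pr _ _ _) (Val_pr _ _ _)).2 FL_two⟩

/-- an embedding of `Qr` gives an embedding of the rationals -/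
theorem emb_of_embQ {D : Set N.M} {R : N.M → N.M → Prop} {g : N.M → N.M}
    (h : EmbQ D R Qr g) : IsEmbEta N D R g where
  mem := codeRel_mem_D0 (R := fun x y => y = g x) h.1
  dom a b c := h.2.1 _
  eq a b c a' b' c' he := by
    have h1 := (FL_eq a b c a' b' c').2 he
    refine h.2.2.2 _ _ ?_ ?_
    · intro h2
      exact h1.1 ((Qr_iff (Val_pr _ _ _) (Val_pr _ _ _)).1 h2)
    · intro h2
      exact h1.2 ((Qr_iff (Val_pr _ _ _) (Val_pr _ _ _)).1 h2)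
  lt a b c a' b' c' hlt :=
    h.2.2.1 _ _ ((Qr_iff (Val_pr _ _ _) (Val_pr _ _ _)).2 hlt)

/-- an embedding of the rationals gives an embedding of `Qr` -/
theorem embQ_of_emb {D : Set N.M} {L : N.M → N.M → Prop} {f : N.M → N.M}
    (h : IsEmbEta N D L f) : ∃ g, EmbQ D L Qr g := by
  have hfD : D0 (fun v => v 1 = f (v 0)) := D0.of_codeRel (R := fun x y => y = f x) h.mem
  have hex : ∀ i : N.M, ∃ y, ∃ a b c, Val i a b c ∧ y = f (pr (pr a b) c) := by
    intro i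
    obtain ⟨a, b, c, hv⟩ := Val_ex i
    exact ⟨_, a, b, c, hv, rfl⟩
  choose g hg using hex
  have hgv : ∀ i a b c, Val i a b c → g i = f (pr (pr a b) c) := by
    intro i a b c hv
    obtain ⟨a', b', c', hv', he⟩ := hg i
    obtain ⟨rfl, rfl, rfl⟩ := Val_unique hv hv'
    exact he
  refine ⟨g, ?_, fun i => ?_, fun i j hij => ?_, fun i j hij hji => ?_⟩
  · refine D0.congr (R := fun v => ∃ a b c, Val (v 0) a b c ∧ v 1 = f (pr (pr a b) c)) ?_
      fun v => ?_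
    · refine D0.ex (D0.ex (D0.ex (D0.and (Val_D0 (Tm.var 3) (Tm.var 2) (Tm.var 1) (Tm.var 0)) ?_)))
      exact hfD.rel (R := fun x y => y = f x) (((Tm.var 2).pr (Tm.var 1)).pr (Tm.var 0))
        (Tm.var 4)
    · constructor
      · rintro ⟨a, b, c, hv, he⟩
        rw [hgv _ a b c hv]; exact he
      · intro he
        obtain ⟨a, b, c, hv⟩ := Val_ex (v 0)
        refine ⟨a, b, c, hv, ?_⟩
        rw [he]; exact hgv _ a b c hv
  · obtain ⟨a, b, c, hv⟩ := Val_ex i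
    rw [hgv i a b c hv]
    exact h.dom a b c
  · obtain ⟨a, b, c, hv⟩ := Val_ex i
    obtain ⟨a', b', c', hv'⟩ := Val_ex j
    rw [hgv i a b c hv, hgv j a' b' c' hv']
    exact h.lt a b c a' b' c' ((Qr_iff hv hv').1 hij)
  · obtain ⟨a, b, c, hv⟩ := Val_ex i
    obtain ⟨a', b', c', hv'⟩ := Val_ex j
    rw [hgv i a b c hv, hgv j a' b' c' hv']
    refine h.eq a b c a' b' c' ((FL_eq a b c a' b' c').1 ⟨fun h1 => ?_, fun h1 => ?_⟩)
    · exact hij ((Qr_iff hv hv').2 h1)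
    · exact hji ((Qr_iff hv' hv).2 h1)

end sig

/-- `ATR₀` proves `EXT(η)` -/
theorem ext_eta (N : L2Structure.{u}) (h : IsModelATR0 N) : ExtEta N := by
  haveI := h.rca
  haveI : Sig1 N := sig1_of_arithComp h.aca
  intro D hD R hR hpo hsc
  obtain ⟨L, h1, h2, h3, h4⟩ := ext_Q (data_of hD hR hpo) h.atr
    (fun ⟨g, hg⟩ => hsc ⟨g, emb_of_embQ hg⟩)
  exact ⟨L, codeRel_mem_D0 h1, h2, h3, fun ⟨f, hf⟩ => h4 (embQ_of_emb hf)⟩

end Pool.Agent.Helper317.Atr
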