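import Mathlib
import Pool.Agent.Helper317.Atr.Defs
import Pool.Agent.Helper617.RM.ACATools
import Pool.Agent.Helper617.RM.Sanity

/-!
The definition of the models of `ATR₀` is not vacuous: the standard structure, in which the set
variables range over all sets of natural numbers, is a model.
-/

namespace Pool.Agent.Helper317.Atr

open Pool.Agent.Helper617.RM IsModelRCA0

theorem fullModel_atr : IsModelATR0 fullModel where
  rca := fullModel_isModel
  aca _ _ := Set.mem_univ _
  atr := by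
    haveI := fullModel_isModel
    intro D R hW θ v
    have hwf : WellFounded (fun i j => R i j ∧ i ≠ j) := by
      rw [wellFounded_iff_isEmpty_descending_chain]
      refine ⟨fun ⟨f, hf⟩ => hW.noDesc ⟨f, Set.mem_univ _, fun i => hf i⟩⟩
    let F : fullModel.M → Set fullModel.M := hwf.fix fun j ih =>
      {n | θ.Holds {p | ∃ m i, ∃ h : R i j ∧ i ≠ j, m ∈ ih i h ∧ p = fullModel.pair m i}
        (cons n v)}
    have hF : ∀ j, F j = {n | θ.Holds {p | ∃ m i, ∃ h : R i j ∧ i ≠ j, m ∈ F i ∧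
        p = fullModel.pair m i} (cons n v)} := fun j => hwf.fix_eq _ j
    refine ⟨{p | ∃ n j, j ∈ D ∧ p = fullModel.pair n j ∧ n ∈ F j}, Set.mem_univ _, fun p => ?_⟩
    have hB : ∀ j, Below fullModel R {p | ∃ n j, j ∈ D ∧ p = fullModel.pair n j ∧ n ∈ F j} j =
        {p | ∃ m i, ∃ h : R i j ∧ i ≠ j, m ∈ F i ∧ p = fullModel.pair m i} := by
      intro j
      ext q
      constructor
      · rintro ⟨⟨n, i', _, h2, h3⟩, m, i, h4, h5, h6⟩
        obtain ⟨rfl, rfl⟩ := pr_inj (h2.symm.trans h6)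
        exact ⟨n, i', ⟨h4, h5⟩, h3, h2⟩
      · rintro ⟨m, i, ⟨h4, h5⟩, h3, h2⟩
        exact ⟨⟨m, i, (hW.dom _ _ h4).1, h2, h3⟩, m, i, h4, h5, h2⟩
    constructor
    · rintro ⟨n, j, h1, h2, h3⟩
      refine ⟨n, j, h1, h2, ?_⟩
      rw [hB j]
      rw [hF j] at h3
      exact h3
    · rintro ⟨n, j, h1, h2, h3⟩
      refine ⟨n, j, h1, h2, ?_⟩
      rw [hB j] at h3
      rw [hF j]
      exact h3

end Pool.Agent.Helper317.Atr
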